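import Pool.Agent.H200W.NefOrb
import Pool.Agent.Q14.WR.NefExp
import Pool.Agent.Q14.WR.NefWide

/-! # Project WR: real classes in wide form are nef.

The two lemmas of `Stm5` were proved by helper14. -/

set_option autoImplicit false

namespace Pool.Agent.H200W

theorem nefExp : S_NefExp := Q14.WR.nefExp

theorem nefWide : S_NefWide := Q14.WR.nefWide

end Pool.Agent.H200W
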