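import Pool.Agent.H200W.All
import Pool.Agent.TH167.SH.Final

/-! # Project WR: nef classes. Statements with proofs. -/

set_option autoImplicit false

namespace Pool.Agent.H200W

open Finset Pool.Agent.H932R3 Pool.Agent.W609.CR

/-- K1. If the multiples of a class of nonnegative self-intersection have the expected dimension, the
class is nonnegative on all curves. Proof. Suppose `δ = ∑ v u - d e ≥ 1`. Put `N = ∑ u ^ 2 + e + 1`
(so `e < N d`; `d = 0` implies `v = 0` and the claim is trivial). For `t` large take `k = N t`. The map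
`f ↦ G ^ t f` embeds the forms of degree `D' = t (N d - e)` with multiplicities at least
`m' i = t (N v i - u i)` (truncated subtraction) into those of degree `k d` with multiplicities at least
`k v i` (`Pool.Agent.TH167.SH.van_pow`, `van_mul`, `van_mono`; `t (N v - u) + t u ≥ t N v`; `VS` and
`vs_fin` of W609/CR). So `h0(k) ≥ (D' + 2).choose 2 - ∑ (m' i + 1).choose 2` (`W609.CR.le_dim`,
`vs_eq_forms`), while `h0(k) = (k d + 2).choose 2 - ∑ (k v i + 1).choose 2` (truncated;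
`Pool.Agent.TH442.NF.expDim_iff`). Twice the first number is at least
`t ^ 2 ((N d - e) ^ 2 - ∑ (N v i - u i) ^ 2) - t N ∑ v i` and
`(N d - e) ^ 2 - ∑ (N v i - u i) ^ 2 = N ^ 2 (d ^ 2 - ∑ v ^ 2) + 2 N δ + e ^ 2 - ∑ u ^ 2
≥ N ^ 2 (d ^ 2 - ∑ v ^ 2) + 1`; twice the second one is at most
`t ^ 2 N ^ 2 (d ^ 2 - ∑ v ^ 2) + 3 t N d + 2` (this is positive). Contradiction for
`t > 3 N d + N ∑ v + 2`. -/
def S_NefExp : Prop := ∀ {n : ℕ} {P : Fin n → Fin 2 → ℂ} {v : Fin n → ℕ} {d k0 : ℕ},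
  ∑ i, v i ^ 2 ≤ d ^ 2 → (∀ k : ℕ, k0 ≤ k → ExpDim ℂ (fun i => k * v i) P (k * d)) →
  ∀ (G : MvPolynomial (Fin 3) ℂ) (e : ℕ) (u : Fin n → ℕ), G ≠ 0 → G.IsHomogeneous e →
    (∀ i, Van (aff (P i)) (u i) G) → ∑ i, v i * u i ≤ d * e

/-- The real class `c H - ∑ x i E i` is in wide form: there are three points `p j` with
`x (p 0) ≥ x (p 1) ≥ x (p 2) ≥ 0` and a nonempty set `S` of other points, `x i = 0` for all further
points, and numbers `M`, `s` such that `0 < x i ≤ M` for `i ∈ S`, with at most `s` different values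
there, `x (p 0) + x (p 1) + x (p 2) ≤ c`, `x (p 0) + 1064960 M ≤ c` and
`∑_S x i ^ 2 ≥ 2 ^ 29 s M ^ 2`. -/
def WideR {n : ℕ} (c : ℝ) (x : Fin n → ℝ) : Prop :=
  ∃ (p : Fin 3 → Fin n) (S : Finset (Fin n)) (M : ℝ) (s : ℕ), Function.Injective p ∧
    (∀ j, p j ∉ S) ∧ (∀ i ∉ S, (∀ j, p j ≠ i) → x i = 0) ∧ S.Nonempty ∧ 0 ≤ x (p 2) ∧
    x (p 2) ≤ x (p 1) ∧ x (p 1) ≤ x (p 0) ∧ (∀ i ∈ S, 0 < x i ∧ x i ≤ M) ∧
    (S.image x).card ≤ s ∧ x (p 0) + x (p 1) + x (p 2) ≤ c ∧ x (p 0) + 1064960 * M ≤ c ∧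
    2 ^ 29 * s * M ^ 2 ≤ ∑ i ∈ S, x i ^ 2

/-- K2. Real classes in wide form with nonnegative self-intersection are nef. Proof. For a natural
number `N` put `v i = ⌊N x i⌋₊`, `d = ⌈N c⌉₊ + 1`, `M' = ⌊N M⌋₊`. For all large `N` the class
`(k d; k v)` is `WideAt` for all `k ≥ 1064960`, with the same `p`, `S`, `s` and `μ = k M'`: `v i ≥ 1` on
`S` for large `N`; equal `x i` have equal `v i`; `v (p 0) + v (p 1) + v (p 2) ≤ N c ≤ d`;
`v (p 0) + 1064960 M' ≤ N c ≤ d - 1`, so `k v (p 0) + 1064960 (k M' + 1) ≤ k d` for `k ≥ 1064960`;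
`∑_S v i ^ 2 ≥ ∑_S (N x i) ^ 2 - 2 N ∑_S x i ≥ 2 ^ 29 s N ^ 2 M ^ 2 - 2 N ∑_S x i ≥
2 ^ 28 s (N M) ^ 2` for large `N` (`s ≥ 1`, `M > 0`). `∑ v i ^ 2 ≤ N ^ 2 ∑ x i ^ 2 ≤ (N c) ^ 2 ≤ d ^ 2`.
`wideAt_all` and K1 give `∑ v i u i ≤ d e`; divide by `N → ∞` (`v i ≥ N x i - 1`,
`d ≤ N c + 2`). -/
def S_NefWide : Prop := S_NefExp → ∀ {n : ℕ} {P : Fin n → Fin 2 → ℂ},
  AlgebraicIndependent ℚ (fun ij : Fin n × Fin 2 => P ij.1 ij.2) →
  ∀ (c : ℝ) (x : Fin n → ℝ), WideR c x → ∑ i, x i ^ 2 ≤ c ^ 2 →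
  ∀ (G : MvPolynomial (Fin 3) ℂ) (e : ℕ) (u : Fin n → ℕ), G ≠ 0 → G.IsHomogeneous e →
    (∀ i, Van (aff (P i)) (u i) G) → ∑ i, x i * (u i : ℝ) ≤ c * e

end Pool.Agent.H200W
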