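import Pool.Agent.H200W.Fin2
import Pool.Agent.Q24.WR.Block
import Pool.Agent.Q24.WR.Bump
import Pool.Agent.Q24.WR.Diag
import Pool.Agent.Q24.WR.Flat
import Pool.Agent.Q24.WR.KTrap
import Pool.Agent.Q24.WR.KTri
import Pool.Agent.Q24.WR.Rare
import Pool.Agent.Q274.WR.Area
import Pool.Agent.Q274.WR.RT
import Pool.Agent.Q274.WR.RowsE
import Pool.Agent.Q274.WR.Sq
import Pool.Agent.Q275.WR.Card
import Pool.Agent.Q275.WR.Hex
import Pool.Agent.Q275.WR.Lg
import Pool.Agent.Q275.WR.Tip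
import Pool.Agent.Q53.WR.Apex
import Pool.Agent.Q53.WR.Attach
import Pool.Agent.Q53.WR.Cor2
import Pool.Agent.Q53.WR.Div
import Pool.Agent.Q53.WR.Split
import Pool.Agent.Q149.WR.NodeE
import Pool.Agent.Q149.WR.NodeS
import Pool.Agent.Q187.WR.StripE
import Pool.Agent.Q187.WR.Strip
import Pool.Agent.Q187.WR.Stack
import Pool.Agent.Q187.WR.Corn
import Pool.Agent.Q111.WR.LeafC
import Pool.Agent.Q111.WR.Num
import Pool.Agent.Q128.WR.Cor
import Pool.Agent.Q128.WR.Rank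

/-! # Project WR: the assembly.

The lemmas of `Stm`, ..., `Stm4` were proved by helper24, helper53, helper111, helper128, helper149,
helper187, helper274 and helper275. -/

set_option autoImplicit false

namespace Pool.Agent.H200W

open Pool.Agent Pool.Agent.H932R3

/-! ## Flattening and cutting -/

theorem p_rowS : S_RowS := Q24.WR.flat.1
theorem p_colS : S_ColS := Q24.WR.flat.2.1
theorem p_rowE : S_RowE := Q24.WR.flat.2.2.1
theorem p_colE : S_ColE := Q24.WR.flat.2.2.2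
theorem p_cutS : S_CutS := Q275.WR.cut.1
theorem p_cutE : S_CutE := Q275.WR.cut.2
theorem p_linS : S_LinS := (Q24.WR.lin p_rowS p_colS p_rowE p_colE).1
theorem p_linE : S_LinE := (Q24.WR.lin p_rowS p_colS p_rowE p_colE).2
theorem p_bumpS : S_BumpS := (Q24.WR.bump p_rowS p_colS p_rowE p_colE).1
theorem p_bumpE : S_BumpE := (Q24.WR.bump p_rowS p_colS p_rowE p_colE).2
theorem p_diagS : S_DiagS := (Q24.WR.diag p_rowS p_colS p_rowE p_colE).1
theorem p_diagE : S_DiagE := (Q24.WR.diag p_rowS p_colS p_rowE p_colE).2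
theorem p_nodeS : S_NodeS := Q149.WR.nodeS
theorem p_nodeE : S_NodeE := Q149.WR.nodeE
theorem p_ktrapS : S_KTrapS := (Q24.WR.ktrap p_rowS p_colS p_rowE p_colE).1
theorem p_ktrapE : S_KTrapE := (Q24.WR.ktrap p_rowS p_colS p_rowE p_colE).2
theorem p_ktriS : S_KTriS := (Q24.WR.ktri p_rowS p_colS p_rowE p_colE).1
theorem p_ktriE : S_KTriE := (Q24.WR.ktri p_rowS p_colS p_rowE p_colE).2
theorem p_tipS : S_TipS := (Q275.WR.tip p_rowS p_colS p_rowE p_colE).1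
theorem p_tipE : S_TipE := (Q275.WR.tip p_rowS p_colS p_rowE p_colE).2

/-! ## Units -/

theorem p_blockS : BlockS := fun h1 h2 => Q24.WR.blockS p_tipS h1 h2
theorem p_blockE : BlockE := fun h1 h2 h3 =>
  Q24.WR.blockE Q274.WR.sqE p_nodeE p_ktriE p_tipE Q274.WR.rowsE h1 h2 h3
theorem p_rareS : RareS := fun h1 h2 h3 h4 h5 => Q24.WR.rareS p_nodeS h1 h2 h3 h4 h5
theorem p_cornerE : S_CornerE := Q24.WR.cornerE p_cutE p_rowE p_colE
theorem p_rareE : RareE := fun h1 h2 h3 h4 h5 h6 h7 =>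
  Q24.WR.rareE p_nodeE p_cornerE p_rowE (fun a b c => p_blockE a b c) h1 h2 h3 h4 h5 h6 h7

/-! ## Good sets -/

theorem p_rtS : ∀ {h u b ρ : ℝ}, 0 < h → 2 ≤ ρ → 4 * ρ * h < 2 * b - 1 →
    GoodS h u (RO b ρ) (b ^ 2 / ρ - b / ρ) :=
  Q274.WR.rtS (fun h1 h2 h3 h4 => Q274.WR.sqS p_nodeS p_ktriS h1 h2 h3 h4)
    (fun h1 => Q53.WR.apexS p_rowS p_cutS h1)
theorem p_rtE : ∀ {h u b ρ : ℝ}, 0 < h → 2 ≤ ρ → 2 * ρ * h < b → GoodE h u (RC b ρ) (b ^ 2 / ρ) :=
  Q274.WR.rtE (fun h1 h2 h3 h4 => Q274.WR.sqE p_nodeE p_ktriE h1 h2 h3 h4)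
    (fun h1 h2 => Q53.WR.apexE p_rowE p_cutE h1 h2)
theorem p_fatS : FatS :=
  Q274.WR.fatS p_diagS (fun h1 h2 h3 h4 => Q274.WR.trapS p_nodeS p_ktrapS h1 h2 h3 h4) p_rtS
theorem p_fatE : FatE :=
  Q274.WR.fatE p_diagE (fun h1 h2 h3 h4 => Q274.WR.trapE p_nodeE p_ktrapE h1 h2 h3 h4) p_rtE

/-! ## Strips and polygons -/

theorem p_stripS : StripS :=
  Q187.WR.stripS p_cutS Q274.WR.areaBend.1 Q274.WR.areaBend.2 Q53.WR.divS
    (fun l h1 h2 h3 h4 => Q275.WR.linGoodS p_linS p_fatS l h1 h2 h3 h4)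
    (fun l h1 h2 h3 h4 h5 h6 => Q275.WR.bumpGoodS p_bumpS p_fatS l h1 h2 h3 h4 h5 h6)
theorem p_stripE : StripE :=
  Q187.WR.stripE p_cutE Q274.WR.areaBend.1 Q274.WR.areaBend.2 Q53.WR.divE
    (fun l h1 h2 h3 h4 => Q275.WR.linGoodE p_linE p_fatE l h1 h2 h3 h4)
    (fun l h1 h2 h3 h4 h5 h6 => Q275.WR.bumpGoodE p_bumpE p_fatE l h1 h2 h3 h4 h5 h6)
theorem p_stackS : StackS := Q187.WR.stackS p_cutS Q274.WR.areaBend.1 Q53.WR.divS p_stripS
theorem p_stackE : StackE := Q187.WR.stackE p_cutE Q274.WR.areaBend.1 Q53.WR.divE p_stripE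
theorem p_cornS : CornS :=
  Q187.WR.corn.1 p_cutS Q53.WR.divS p_stackS (fun h1 h2 => Q187.WR.top.1 p_linS p_tipS p_rtS h1 h2)
theorem p_cornE : CornE :=
  Q187.WR.corn.2 p_cutE Q53.WR.divE p_stackE (fun h1 h2 => Q187.WR.top.2 p_linE p_tipE p_rtE h1 h2)
theorem p_hexS : HexS := Q275.WR.hexS p_cutS Q53.WR.divS p_stackS p_cornS
theorem p_hexE : HexE := Q275.WR.hexE p_cutE Q53.WR.divE p_stackE p_cornE
theorem p_card : S_CardHX := Q275.WR.card
theorem p_win : Win := fun h1 h2 h3 h4 h5 => Q275.WR.win p_hexS p_hexE p_card h1 h2 h3 h4 h5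

/-! ## Units and coranks -/

theorem p_units : Units := Q53.WR.units Q53.WR.split
  (fun B C R h1 h2 h3 h4 h5 => Q53.WR.attach p_blockS p_blockE p_rareS p_rareE B C R h1 h2 h3 h4 h5)
theorem p_leafC : LeafC := Q111.WR.leafC p_units p_win p_card
theorem p_corank : Corank := Q128.WR.cor (Q111.WR.num p_leafC)
theorem p_corank2 : Corank2 := Q53.WR.cor2 p_corank
theorem p_rank : S_RankHX := Q128.WR.rank

/-! ## The results -/

open Pool.Agent.H932R2 Pool.Agent.H932R7 Pool.Agent.W609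

/-- **Three arbitrary multiplicities, the wide regime.** -/
theorem wide_all (L : Type) [Field L] [CharZero L] {r : ℕ} {v : Fin (r + 4) → ℕ} (hv : Antitone v)
    (h0 : 0 < v 3) :
    ∃ F : MvPolynomial (Fin (r + 4) × Fin 2) ℚ, F ≠ 0 ∧ ∀ P : Fin (r + 4) → Fin 2 → L,
      MvPolynomial.aeval (fun ij : Fin (r + 4) × Fin 2 => P ij.1 ij.2) F ≠ 0 →
        ∀ d : ℕ, (GW v d ∨ ∃ e, d ≤ e ∧ GW v e ∧ (e + 2).choose 2 ≤ Aw v) → ExpDim L v P d :=
  wide p_corank p_corank2 p_card p_rank L hv h0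

/-- Wide classes have the expected dimension at generic points. -/
theorem wideAt_all {n : ℕ} {e : ℕ} {w : Fin n → ℕ} (h : WideAt e w)
    {K : Type} [Field K] [CharZero K] {P : Fin n → Fin 2 → K}
    (hP : AlgebraicIndependent ℚ (fun ij : Fin n × Fin 2 => P ij.1 ij.2)) : ExpDim K w P e :=
  wideAt_exp p_corank p_corank2 p_card p_rank h hP

/-- Wide classes have the expected dimension at generic points. -/
theorem wide_cls {n : ℕ} {d : ℕ} {w : Fin n → ℕ} (h : Wide d w)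
    {K : Type} [Field K] [CharZero K] {P : Fin n → Fin 2 → K}
    (hP : AlgebraicIndependent ℚ (fun ij : Fin n × Fin 2 => P ij.1 ij.2)) : ExpDim K w P d :=
  wide_exp p_corank p_corank2 p_card p_rank h hP

end Pool.Agent.H200W
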