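import Pool.Agent.TH2.NU.Multi
import Pool.Agent.Y205.FW.Acc
import Pool.Agent.Y205.FW.Donor
import Pool.Agent.Y100.FW.Seq
import Pool.Agent.Y665.FW.Key
import Pool.Agent.Y839.FW.Corner

/-! # Project WR: interpolation in wide polygons. Definitions.

`SurM M S`: the conditions of general points (of the torus) with the multiplicities `M` are independent
on the Laurent polynomials with exponents in `S`; `EmpM M S`: there is no nonzero Laurent polynomial with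
exponents in `S` and the multiplicities `M` at general points. -/

set_option autoImplicit false

namespace Pool.Agent.H200W

open Finset Pool.Agent.TH176.Nag Pool.Agent.TH603.Sur Pool.Agent.TH2.NU Pool.Agent.TH641.UM
open Pool.Agent.Y205.FW Pool.Agent.Y205.MD

/-- open right triangle of base `b` and slope `ρ` (height `b / ρ`) -/
def RO (b ρ : ℝ) : Set (ℤ × ℤ) := {p | 0 < p.1 ∧ 0 < p.2 ∧ (p.1 : ℝ) + ρ * p.2 < b}

/-- closed right triangle of base `b` and slope `ρ` (height `b / ρ`) -/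
def RC (b ρ : ℝ) : Set (ℤ × ℤ) := {p | 0 ≤ p.1 ∧ 0 ≤ p.2 ∧ (p.1 : ℝ) + ρ * p.2 ≤ b}

/-- open right trapezoid of base `B`, slope `s` and height `h` (top `B - s h`) -/
def TO (B s h : ℝ) : Set (ℤ × ℤ) :=
  {p | 0 < p.1 ∧ 0 < p.2 ∧ (p.2 : ℝ) < h ∧ (p.1 : ℝ) + s * p.2 < B}

/-- closed right trapezoid of base `B`, slope `s` and height `h` (top `B - s h`) -/
def TC (B s h : ℝ) : Set (ℤ × ℤ) :=
  {p | 0 ≤ p.1 ∧ 0 ≤ p.2 ∧ (p.2 : ℝ) ≤ h ∧ (p.1 : ℝ) + s * p.2 ≤ B}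

/-- open two-sided trapezoid at a node: rows of length `T - s j`, divided in the ratio `y : 1 - y` -/
def WO (T s y h : ℝ) : Set (ℤ × ℤ) :=
  {p | 0 < p.2 ∧ (p.2 : ℝ) < h ∧ -(y * (T - s * p.2)) < (p.1 : ℝ) ∧
    (p.1 : ℝ) < (1 - y) * (T - s * p.2)}

/-- closed two-sided trapezoid at a node -/
def WC (T s y h : ℝ) : Set (ℤ × ℤ) :=
  {p | 0 ≤ p.2 ∧ (p.2 : ℝ) ≤ h ∧ -(y * (T - s * p.2)) ≤ (p.1 : ℝ) ∧
    (p.1 : ℝ) ≤ (1 - y) * (T - s * p.2)}

/-- `M` is independent on all open right triangles of height `h` and twice the area at least `n` -/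
def UnitS (h : ℝ) (M : Multiset ℕ) (n : ℝ) : Prop :=
  ∀ ρ : ℝ, n ≤ ρ * h ^ 2 → SurM M (RO (ρ * h) ρ)

/-- `M` is empty on all closed right triangles of height `h` and twice the area at most `n` -/
def UnitE (h : ℝ) (M : Multiset ℕ) (n : ℝ) : Prop :=
  ∀ ρ : ℝ, 0 < ρ → ρ * h ^ 2 ≤ n → EmpM M (RC (ρ * h) ρ)

/-- all lists of units (each of need at most `u`) of total need at most `α` are independent on `S` -/
def GoodS (h u : ℝ) (S : Set (ℤ × ℤ)) (α : ℝ) : Prop :=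
  ∀ L : List (Multiset ℕ × ℝ), (∀ x ∈ L, UnitS h x.1 x.2 ∧ 0 ≤ x.2 ∧ x.2 ≤ u) →
    (L.map Prod.snd).sum ≤ α → SurM (L.map Prod.fst).sum S

/-- all lists of units (each of need at most `u`) of total need at least `α` are empty on `S` -/
def GoodE (h u : ℝ) (S : Set (ℤ × ℤ)) (α : ℝ) : Prop :=
  ∀ L : List (Multiset ℕ × ℝ), (∀ x ∈ L, UnitE h x.1 x.2 ∧ 0 ≤ x.2 ∧ x.2 ≤ u) →
    α ≤ (L.map Prod.snd).sum → EmpM (L.map Prod.fst).sum S

/-- the open region `y0 < y < y1`, `max 0 (M - y) < x < min q (d - y)` -/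
def ZO (M q d y0 y1 : ℝ) : Set (ℤ × ℤ) :=
  {p | y0 < (p.2 : ℝ) ∧ (p.2 : ℝ) < y1 ∧ 0 < p.1 ∧ M - p.2 < (p.1 : ℝ) ∧ (p.1 : ℝ) < q ∧
    (p.1 : ℝ) < d - p.2}

/-- the closed region `y0 ≤ y ≤ y1`, `max 0 (M - y) ≤ x ≤ min q (d - y)` -/
def ZC (M q d y0 y1 : ℝ) : Set (ℤ × ℤ) :=
  {p | y0 ≤ (p.2 : ℝ) ∧ (p.2 : ℝ) ≤ y1 ∧ 0 ≤ p.1 ∧ M - p.2 ≤ (p.1 : ℝ) ∧ (p.1 : ℝ) ≤ q ∧
    (p.1 : ℝ) ≤ d - p.2}

/-- the length of the row `y` of these regions -/
noncomputable def rl (M q d y : ℝ) : ℝ := min q (d - y) - max 0 (M - y)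

/-- twice the area below the row `y`, up to a constant -/
noncomputable def ga (M q d y : ℝ) : ℝ :=
  2 * q * y - (max 0 (y - (d - q))) ^ 2 + (max 0 (M - y)) ^ 2

/-- the exponents of the forms of degree `d` with the multiplicities `M1, M2, M3` at the coordinate
points (`M1` at the point on the `y`-axis) -/
noncomputable def HX (M1 M2 M3 d : ℕ) : Finset (ℤ × ℤ) :=
  (Icc (0 : ℤ) ((d : ℤ) - M2) ×ˢ Icc (0 : ℤ) ((d : ℤ) - M1)).filter
    fun p => p.1 + p.2 ≤ (d : ℤ) ∧ (M3 : ℤ) ≤ p.1 + p.2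

end Pool.Agent.H200W
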