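import Pool.Agent.H200W.Stm4
import Pool.Agent.W609.T.Five

/-! # Project WR: general points. -/

set_option autoImplicit false

namespace Pool.Agent.H200W

open Finset Pool.Agent.TH176.Nag Pool.Agent.TH603.Sur Pool.Agent.TH2.NU Pool.Agent.TH641.UM
open Pool.Agent.Y205.FW Pool.Agent.Y205.MD
open Pool.Agent.H932R2 Pool.Agent.H932R3 Pool.Agent.H932R7 Pool.Agent.W609 Pool.Agent.W609.T

/-- the conclusion of I4 -/
def Corank2 : Prop := ∀ {d M1 M2 M3 μ : ℕ} (w : Multiset ℕ), M3 ≤ M2 → M2 ≤ M1 →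
  M1 + M2 + M3 ≤ d → M1 + 1064960 * (μ + 1) ≤ d → 1 ≤ μ → μ ∈ w → (∀ v ∈ w, 1 ≤ v ∧ v ≤ μ) →
  2 ^ 29 * w.toFinset.card * μ ^ 2 ≤ (HX M1 M2 M3 d).card →
  crkM (HX M1 M2 M3 d) w ≤ (HX M1 M2 M3 d).card - TH2.NU.condM w

/-- the number of different values of the multiplicities `v i`, `i ≥ 3` -/
def nv {r : ℕ} (v : Fin (r + 4) → ℕ) : ℕ :=
  ((univ.image fun i : Fin (r + 1) => v ⟨i.1 + 3, by omega⟩).erase 0).card

/-- The good degrees. -/
def GW {r : ℕ} (v : Fin (r + 4) → ℕ) (d : ℕ) : Prop :=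
  v 0 + v 1 + v 2 ≤ d ∧ v 0 + 1064960 * (v 3 + 1) ≤ d ∧
    (2 ^ 28 * nv v * v 3 ^ 2 ≤ ∑ i : Fin (r + 1), v ⟨i.1 + 3, by omega⟩ ^ 2 ∨
      2 ^ 30 * nv v * v 3 ^ 2 + (v 0 * (v 0 + 1) + v 1 * (v 1 + 1) + v 2 * (v 2 + 1)) ≤
        (d + 1) * (d + 2))

theorem GW_mono {r : ℕ} {v : Fin (r + 4) → ℕ} {a b : ℕ} (h : a ≤ b) (ha : GW v a) : GW v b := by
  obtain ⟨h1, h2, h3⟩ := ha
  refine ⟨h1.trans h, h2.trans h, ?_⟩
  rcases h3 with h3 | h3
  · exact Or.inl h3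
  · exact Or.inr (h3.trans (Nat.mul_le_mul (by omega) (by omega)))

theorem GW_ex {r : ℕ} (v : Fin (r + 4) → ℕ) : ∃ d, GW v d := by
  obtain ⟨X, hX⟩ : ∃ X, X = 2 ^ 30 * nv v * v 3 ^ 2 +
    (v 0 * (v 0 + 1) + v 1 * (v 1 + 1) + v 2 * (v 2 + 1)) := ⟨_, rfl⟩
  refine ⟨X + (v 0 + v 1 + v 2) + (v 0 + 1064960 * (v 3 + 1)), by omega, by omega, Or.inr ?_⟩
  rw [← hX]
  exact le_trans (by omega : X ≤ X + (v 0 + v 1 + v 2) + (v 0 + 1064960 * (v 3 + 1)) + 1)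
    (Nat.le_mul_of_pos_right _ (by omega))

/-- The rank in the good degrees. -/
theorem rank_wide (hC : Corank) (hC2 : Corank2) (hcard : S_CardHX) (hR : S_RankHX) {r : ℕ}
    {v : Fin (r + 4) → ℕ} (hv : Antitone v) (h0 : 0 < v 3) {d : ℕ} (hG : GW v d) :
    RkS (PF ℚ v) (Tset d) (min ((d + 2).choose 2) (Aw v)) := by
  classical
  obtain ⟨g1, g2, g3⟩ := hG
  have n0 : ((0 : Fin (r + 4)) : ℕ) = 0 := rfl
  have n1 : ((1 : Fin (r + 4)) : ℕ) = 1 := Nat.mod_eq_of_lt (show 1 < r + 4 by omega)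
  have n2 : ((2 : Fin (r + 4)) : ℕ) = 2 := Nat.mod_eq_of_lt (show 2 < r + 4 by omega)
  have n3 : ((3 : Fin (r + 4)) : ℕ) = 3 := Nat.mod_eq_of_lt (show 3 < r + 4 by omega)
  obtain ⟨w, hw⟩ : ∃ w : Fin (r + 1) → ℕ, w = fun i : Fin (r + 1) => v ⟨i.1 + 3, by omega⟩ :=
    ⟨_, rfl⟩
  have h32 : v 2 ≤ v 1 := hv (by rw [Fin.le_def, n1, n2]; omega)
  have h21 : v 1 ≤ v 0 := hv (by rw [Fin.le_def, n1, n0]; omega)
  have hwm : ∀ i, w i ≤ v 3 := by
    intro i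
    rw [hw]
    refine hv ?_
    rw [Fin.le_def, n3]
    simp only
    omega
  have hw0 : w 0 = v 3 := by
    rw [hw]
    exact congrArg v (Fin.ext (by rw [n3]; rfl))
  obtain ⟨W, hW⟩ : ∃ W : Multiset ℕ, W = (univ.val.map w).filter fun v => 1 ≤ v := ⟨_, rfl⟩
  have hmemW : ∀ x, x ∈ W ↔ 1 ≤ x ∧ ∃ i, w i = x := by
    intro x
    rw [hW, Multiset.mem_filter, Multiset.mem_map]
    simp only [mem_val, mem_univ, true_and]
    exact and_comm
  have hWF : W.toFinset = (univ.image w).erase 0 := by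
    ext x
    rw [Multiset.mem_toFinset, hmemW, mem_erase, mem_image]
    simp only [mem_univ, true_and]
    constructor
    · rintro ⟨a1, a2⟩
      exact ⟨by omega, a2⟩
    · rintro ⟨a1, a2⟩
      exact ⟨by omega, a2⟩
  have hnv : W.toFinset.card = nv v := by
    rw [hWF, hw]
    rfl
  have hsq : (W.map fun x => x ^ 2).sum = ∑ i : Fin (r + 1), w i ^ 2 := by
    rw [hW]
    have e1 : ∀ T : Multiset ℕ, ((T.filter fun v => 1 ≤ v).map fun x => x ^ 2).sum =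
        (T.map fun x => x ^ 2).sum := by
      intro T
      induction T using Multiset.induction_on with
      | empty => simp
      | cons a T ih =>
        by_cases ha : 1 ≤ a
        · rw [Multiset.filter_cons_of_pos _ ha, Multiset.map_cons, Multiset.map_cons,
            Multiset.sum_cons, Multiset.sum_cons, ih]
        · have : a = 0 := by omega
          subst this
          rw [Multiset.filter_cons_of_neg _ ha, Multiset.map_cons, Multiset.sum_cons, ih]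
          simp
    rw [e1, Multiset.map_map]
    rfl
  have hWb : ∀ x ∈ W, 1 ≤ x ∧ x ≤ v 3 := by
    intro x hx
    obtain ⟨a1, i, rfl⟩ := (hmemW x).1 hx
    exact ⟨a1, hwm i⟩
  have hmu : v 3 ∈ W := (hmemW _).2 ⟨h0, 0, hw0⟩
  have hc2 := hcard (M1 := v 0) (M2 := v 1) (M3 := v 2) (d := d) h32 h21 g1
  have key : crkM (HX (v 0) (v 1) (v 2) d) W ≤
      (HX (v 0) (v 1) (v 2) d).card - TH2.NU.condM W := by
    rcases g3 with g3 | g3
    · refine hC W h32 h21 g1 g2 h0 hWb ?_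
      rw [hnv, hsq, hw]
      exact g3
    · refine hC2 W h32 h21 g1 g2 h0 hmu hWb ?_
      rw [hnv]
      have e : 2 ^ 30 * nv v * v 3 ^ 2 = 2 * (2 ^ 29 * nv v * v 3 ^ 2) := by ring
      rw [e] at g3
      omega
  rw [hW] at key
  have h6 := hR w h32 h21 g1 key
  have hAv : Aw v = Aw (Sum.elim ![v 0, v 1, v 2] w) := by
    have k1 : (Fin.succ (0 : Fin (r + 3))) = (1 : Fin (r + 4)) := Fin.ext (by rw [n1]; rfl)
    have k2 : (Fin.succ (Fin.succ (0 : Fin (r + 2)))) = (2 : Fin (r + 4)) := Fin.ext (by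
      rw [n2]; rfl)
    have e2 : Aw (Sum.elim ![v 0, v 1, v 2] w) = Aw ![v 0, v 1, v 2] + Aw w := by
      unfold Aw
      rw [Fintype.sum_sum_type]
      rfl
    rw [e2, Aw_three]
    unfold Aw
    rw [Fin.sum_univ_succ, Fin.sum_univ_succ, Fin.sum_univ_succ, k1, k2, hw, ← Nat.add_assoc,
      ← Nat.add_assoc]
    rfl
  rw [← hAv] at h6
  refine rkS_reindex (f := Sum.elim ![0, 1, 2] (fun i : Fin (r + 1) => ⟨i.1 + 3, by omega⟩))
    (g := fun x : Fin (r + 4) => if h : x.1 < 3 then Sum.inl ⟨x.1, h⟩ else Sum.inr ⟨x.1 - 3, by omega⟩)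
    ?_ ?_ h6
  · rintro (b | a)
    · fin_cases b <;> rfl
    · simp
  · rintro (b | a)
    · fin_cases b <;> rfl
    · rw [hw]
      rfl

/-- **Three arbitrary multiplicities, the wide regime.** -/
theorem wide (hC : Corank) (hC2 : Corank2) (hcard : S_CardHX) (hR : S_RankHX)
    (L : Type) [Field L] [CharZero L] {r : ℕ} {v : Fin (r + 4) → ℕ} (hv : Antitone v)
    (h0 : 0 < v 3) :
    ∃ F : MvPolynomial (Fin (r + 4) × Fin 2) ℚ, F ≠ 0 ∧ ∀ P : Fin (r + 4) → Fin 2 → L,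
      MvPolynomial.aeval (fun ij : Fin (r + 4) × Fin 2 => P ij.1 ij.2) F ≠ 0 →
        ∀ d : ℕ, (GW v d ∨ ∃ e, d ≤ e ∧ GW v e ∧ (e + 2).choose 2 ≤ Aw v) → ExpDim L v P d := by
  obtain ⟨F, hF, hF'⟩ := fin_abs L v 0 0 (GW v)
    (fun a b hab => GW_mono hab) (GW_ex v) (fun d hG _ => rank_wide hC hC2 hcard hR hv h0 hG)
    (fun d hG hd => by
      have h9 := rank_wide hC hC2 hcard hR hv h0 hG
      rwa [min_eq_left (by omega)] at h9)
  refine ⟨F, hF, fun P hP d hd => hF' P hP d ?_⟩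
  rcases hd with hd | ⟨e, h1, h2, h3⟩
  · exact Or.inl ⟨hd, by omega⟩
  · exact Or.inr ⟨e, h1, h2, by omega⟩

end Pool.Agent.H200W
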