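import Pool.Agent.H200W.Fin
import Pool.Agent.Y205.AV.Large

/-! # Project WR: wide classes. -/

set_option autoImplicit false

namespace Pool.Agent.H200W

open Finset Pool.Agent.TH176.Nag Pool.Agent.TH603.Sur Pool.Agent.TH2.NU Pool.Agent.TH641.UM
open Pool.Agent.Y205.FW Pool.Agent.Y205.MD
open Pool.Agent.H932R2 Pool.Agent.H932R3 Pool.Agent.H932R7 Pool.Agent.W609 Pool.Agent.W609.T

/-- The rank for three arbitrary multiplicities `M1 ≥ M2 ≥ M3` and a family of further ones. -/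
theorem rank_fam (hC : Corank) (hC2 : Corank2) (hcard : S_CardHX) (hR : S_RankHX)
    {e M1 M2 M3 μ s : ℕ} {ι : Type} [Fintype ι] (w : ι → ℕ) (h32 : M3 ≤ M2) (h21 : M2 ≤ M1)
    (g1 : M1 + M2 + M3 ≤ e) (g2 : M1 + 1064960 * (μ + 1) ≤ e) (hne : Nonempty ι)
    (hw1 : ∀ i, 1 ≤ w i) (hwm : ∀ i, w i ≤ μ) (hs : (univ.image w).card ≤ s)
    (g3 : 2 ^ 28 * s * μ ^ 2 ≤ ∑ i, w i ^ 2 ∨
      2 ^ 30 * s * μ ^ 2 + (M1 * (M1 + 1) + M2 * (M2 + 1) + M3 * (M3 + 1)) ≤ (e + 1) * (e + 2)) :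
    RkS (PF ℚ (Sum.elim ![M1, M2, M3] w)) (Tset e)
      (min ((e + 2).choose 2) (Aw (Sum.elim ![M1, M2, M3] w))) := by
  classical
  obtain ⟨W, hW⟩ : ∃ W : Multiset ℕ, W = (univ.val.map w).filter fun v => 1 ≤ v := ⟨_, rfl⟩
  have hmemW : ∀ x, x ∈ W ↔ 1 ≤ x ∧ ∃ i, w i = x := by
    intro x
    rw [hW, Multiset.mem_filter, Multiset.mem_map]
    simp only [mem_val, mem_univ, true_and]
    exact and_comm
  have hWF : W.toFinset = univ.image w := by
    ext x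
    rw [Multiset.mem_toFinset, hmemW, mem_image]
    simp only [mem_univ, true_and]
    constructor
    · rintro ⟨a1, a2⟩
      exact a2
    · rintro ⟨i, rfl⟩
      exact ⟨hw1 i, i, rfl⟩
  have hall : (univ.val.map w).filter (fun v => 1 ≤ v) = univ.val.map w := by
    rw [Multiset.filter_eq_self]
    intro a ha
    rw [Multiset.mem_map] at ha
    obtain ⟨i, -, rfl⟩ := ha
    exact hw1 i
  have hsq : (W.map fun x => x ^ 2).sum = ∑ i, w i ^ 2 := by
    rw [hW, hall, Multiset.map_map]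
    rfl
  obtain ⟨ν, hν⟩ : ∃ ν, ν = univ.sup w := ⟨_, rfl⟩
  obtain ⟨i0, -, hi0⟩ := exists_mem_eq_sup univ (univ_nonempty_iff.2 hne) w
  rw [← hν] at hi0
  have hνμ : ν ≤ μ := hi0 ▸ hwm i0
  have hν1 : 1 ≤ ν := hi0 ▸ hw1 i0
  have hWb : ∀ x ∈ W, 1 ≤ x ∧ x ≤ ν := by
    intro x hx
    obtain ⟨a1, i, rfl⟩ := (hmemW x).1 hx
    exact ⟨a1, hν ▸ le_sup (mem_univ i)⟩
  have hmu : ν ∈ W := (hmemW _).2 ⟨hν1, i0, hi0.symm⟩
  have hcs : W.toFinset.card ≤ s := hWF ▸ hs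
  have hsν : ∀ c : ℕ, c * W.toFinset.card * ν ^ 2 ≤ c * s * μ ^ 2 := fun c =>
    Nat.mul_le_mul (Nat.mul_le_mul_left _ hcs) (Nat.pow_le_pow_left hνμ 2)
  have g2' : M1 + 1064960 * (ν + 1) ≤ e :=
    (Nat.add_le_add_left (Nat.mul_le_mul_left 1064960 (Nat.succ_le_succ hνμ)) M1).trans g2
  have hc2 := hcard (M1 := M1) (M2 := M2) (M3 := M3) (d := e) h32 h21 g1
  have key : crkM (HX M1 M2 M3 e) W ≤ (HX M1 M2 M3 e).card - TH2.NU.condM W := by
    rcases g3 with g3 | g3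
    · refine hC W h32 h21 g1 g2' hν1 hWb ?_
      rw [hsq]
      exact (hsν _).trans g3
    · refine hC2 W h32 h21 g1 g2' hν1 hmu hWb ?_
      have e1 : 2 ^ 30 * s * μ ^ 2 = 2 * (2 ^ 29 * s * μ ^ 2) := by ring
      rw [e1] at g3
      have h5 := hsν (2 ^ 29)
      omega
  rw [hW] at key
  exact hR w h32 h21 g1 key

/-- The class `(e; w)` is wide: there are three points `p j` with `w (p 0) ≥ w (p 1) ≥ w (p 2)` and a
nonempty set `S` of other points, `w i ≤ 1` for all further points, and numbers `μ`, `s` such that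
`1 ≤ w i ≤ μ` for `i ∈ S`, with at most `s` different values there, and
* `w (p 0) + w (p 1) + w (p 2) ≤ e`, `w (p 0) + 1064960 (μ + 1) ≤ e`,
* `∑_S w i ^ 2 ≥ 2 ^ 28 s μ ^ 2`, or `(e + 1) (e + 2) ≥ 2 ^ 30 s μ ^ 2 + ∑ w (p j) (w (p j) + 1)`. -/
def WideAt {n : ℕ} (e : ℕ) (w : Fin n → ℕ) : Prop :=
  ∃ (p : Fin 3 → Fin n) (S : Finset (Fin n)) (μ s : ℕ), Function.Injective p ∧ (∀ j, p j ∉ S) ∧
    (∀ i ∉ S, (∀ j, p j ≠ i) → w i ≤ 1) ∧ S.Nonempty ∧ w (p 2) ≤ w (p 1) ∧ w (p 1) ≤ w (p 0) ∧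
    (∀ i ∈ S, 1 ≤ w i ∧ w i ≤ μ) ∧ (S.image w).card ≤ s ∧
    w (p 0) + w (p 1) + w (p 2) ≤ e ∧ w (p 0) + 1064960 * (μ + 1) ≤ e ∧
    (2 ^ 28 * s * μ ^ 2 ≤ ∑ i ∈ S, w i ^ 2 ∨
      2 ^ 30 * s * μ ^ 2 + ∑ j, w (p j) * (w (p j) + 1) ≤ (e + 1) * (e + 2))

/-- The class `(d; w)` is wide, or below a wide class of a larger degree without sections. -/
def Wide {n : ℕ} (d : ℕ) (w : Fin n → ℕ) : Prop :=
  WideAt d w ∨ ∃ e, d ≤ e ∧ WideAt e w ∧ (e + 2).choose 2 ≤ ∑ i, (w i + 1).choose 2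

theorem wideAt_exp (hC : Corank) (hC2 : Corank2) (hcard : S_CardHX) (hR : S_RankHX)
    {n : ℕ} {e : ℕ} {w : Fin n → ℕ} (h : WideAt e w)
    {K : Type} [Field K] [CharZero K] {P : Fin n → Fin 2 → K}
    (hP : AlgebraicIndependent ℚ (fun ij : Fin n × Fin 2 => P ij.1 ij.2)) : ExpDim K w P e := by
  classical
  obtain ⟨p, S, μ, s, hp, hpS, h1, hne, h32, h21, hw, hs, g1, g2, g3⟩ := h
  have hsum : ∀ f : Fin n → ℕ, ∑ i : {i // i ∈ S}, f i.1 = ∑ i ∈ S, f i := fun f =>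
    (Finset.sum_coe_sort S f)
  have r1 := rank_fam hC hC2 hcard hR (e := e) (M1 := w (p 0)) (M2 := w (p 1)) (M3 := w (p 2))
    (μ := μ) (s := s) (ι := {i // i ∈ S}) (fun i => w i.1) h32 h21 (by omega) g2
    ⟨⟨hne.choose, hne.choose_spec⟩⟩ (fun i => (hw i.1 i.2).1) (fun i => (hw i.1 i.2).2)
    (le_trans (card_le_card (fun x hx => by
      obtain ⟨j, -, hj⟩ := mem_image.1 hx
      rw [← hj]
      exact mem_image_of_mem w j.2)) hs)
    (by
      rw [hsum fun i => w i ^ 2]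
      rw [Fin.sum_univ_three] at g3
      exact g3)
  obtain ⟨k, hk⟩ : ∃ k, k = Fintype.card (Fin 3 ⊕ {i // i ∈ S}) := ⟨_, rfl⟩
  obtain ⟨E⟩ : Nonempty (Fin k ≃ Fin 3 ⊕ {i // i ∈ S}) := ⟨(Fintype.equivFinOfCardEq hk.symm).symm⟩
  obtain ⟨q, hq⟩ : ∃ q : Fin 3 ⊕ {i // i ∈ S} → Fin n, q = Sum.elim p fun i => i.1 := ⟨_, rfl⟩
  have hqi : Function.Injective q := by
    rw [hq]
    rintro (a | a) (b | b) hab
    · rw [hp hab]
    · exact absurd b.2 (by
        have h5 : p a = b.1 := hab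
        rw [← h5]
        exact hpS a)
    · exact absurd a.2 (by
        have h5 : a.1 = p b := hab
        rw [h5]
        exact hpS b)
    · exact congrArg Sum.inr (Subtype.ext hab)
  have hwq : ∀ x, w (q x) = Sum.elim ![w (p 0), w (p 1), w (p 2)] (fun i : {i // i ∈ S} => w i.1) x := by
    rw [hq]
    rintro (a | a)
    · fin_cases a <;> rfl
    · rfl
  obtain ⟨ε, hε⟩ : ∃ ε : Fin k ↪ Fin n, ∀ a, ε a = q (E a) :=
    ⟨⟨fun a => q (E a), hqi.comp E.injective⟩, fun a => rfl⟩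
  have r2 : RkS (PF ℚ fun a => w (ε a)) (Tset e)
      (min ((e + 2).choose 2) (Aw (Sum.elim ![w (p 0), w (p 1), w (p 2)]
        (fun i : {i // i ∈ S} => w i.1)))) := by
    refine rkS_reindex (f := fun x => E.symm x) (g := fun a => E a) (fun x => E.apply_symm_apply x)
      (fun x => ?_) r1
    rw [hε, E.apply_symm_apply, hwq]
  have hAw : Aw (Sum.elim ![w (p 0), w (p 1), w (p 2)] (fun i : {i // i ∈ S} => w i.1)) =
      Aw fun a => w (ε a) := by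
    unfold Aw
    refine (Fintype.sum_equiv E _ _ fun a => ?_).symm
    beta_reduce
    rw [hε, hwq]
  rw [hAw] at r2
  have hex : ∃ F : MvPolynomial (Fin k × Fin 2) ℚ, F ≠ 0 ∧ ∀ Q : Fin k → Fin 2 → K,
      MvPolynomial.aeval (fun ij : Fin k × Fin 2 => Q ij.1 ij.2) F ≠ 0 →
      ExpDim K (fun a => w (ε a)) Q e := by
    rcases Nat.le_total (Aw fun a => w (ε a)) ((e + 2).choose 2) with h6 | h6
    · rw [min_eq_right h6] at r2
      obtain ⟨F, hF, hF'⟩ := exp_of_indep (L := K) T_HOP r2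
      exact ⟨F, hF, fun Q hQ => hF' Q hQ e le_rfl⟩
    · rw [min_eq_left h6, ← card_Tfin'] at r2
      obtain ⟨F, hF, hF'⟩ := exp_of_full (L := K) T_HOP r2
      exact ⟨F, hF, fun Q hQ => hF' Q hQ e le_rfl⟩
  have h3 := Pool.Agent.TH885.CO.exp_plus ε (w := w) (d := e)
    (fun i hi => by
      have hi' : ∀ x, q x ≠ i := by
        intro x hx
        refine hi (Finset.mem_map.2 ⟨E.symm x, Finset.mem_univ _, ?_⟩)
        rw [hε, E.apply_symm_apply, hx]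
      refine h1 i (fun hiS => hi' (Sum.inr ⟨i, hiS⟩) (by rw [hq]; rfl)) fun j hj =>
        hi' (Sum.inl j) (by rw [hq]; exact hj)) hex hP
  have h4 : Module.finrank K ↥(Pool.Agent.TH167.SHDefs.sys P e w) =
      (e + 2).choose 2 - ∑ j, (w j + 1).choose 2 := by
    rw [Pool.Agent.TH885.CO.sys_eq]
    exact h3
  exact h4

/-- No sections in degree `e`: none in lower degrees. -/
theorem exp_low {K : Type} [Field K] {n : ℕ} {w : Fin n → ℕ} {P : Fin n → Fin 2 → K} {d e : ℕ}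
    (h : d ≤ e) (h1 : ExpDim K w P e) (h2 : (e + 2).choose 2 ≤ ∑ i, (w i + 1).choose 2) :
    ExpDim K w P d := by
  unfold ExpDim at h1 ⊢
  obtain ⟨J, hJ⟩ : ∃ J : Submodule K (MvPolynomial (Fin 3) K), J = Submodule.restrictScalars K
        (⨅ i : Fin n,
          (Ideal.span
            ({MvPolynomial.X 0 - MvPolynomial.C (P i 0) * MvPolynomial.X 2,
              MvPolynomial.X 1 - MvPolynomial.C (P i 1) * MvPolynomial.X 2} :
              Set (MvPolynomial (Fin 3) K))) ^ (w i)) := ⟨_, rfl⟩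
  rw [← hJ] at h1 ⊢
  have hfin : ∀ a, Module.Finite K ↥(MvPolynomial.homogeneousSubmodule (Fin 3) K a) := fun a =>
    Module.Finite.iff_fg.2 (MvPolynomial.homogeneousSubmodule_fg _ _ a)
  have hfin2 : ∀ a, Module.Finite K ↥(MvPolynomial.homogeneousSubmodule (Fin 3) K a ⊓ J) := fun a =>
    haveI := hfin a
    Submodule.finiteDimensional_of_le (S₂ := MvPolynomial.homogeneousSubmodule (Fin 3) K a)
      inf_le_left
  rw [Nat.sub_eq_zero_of_le h2] at h1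
  have h4 : (d + 2).choose 2 - ∑ i, (w i + 1).choose 2 = 0 :=
    Nat.sub_eq_zero_of_le ((Nat.choose_le_choose 2 (by omega)).trans h2)
  rw [h4]
  haveI := hfin2 e
  have h5 : MvPolynomial.homogeneousSubmodule (Fin 3) K e ⊓ J = ⊥ := Submodule.finrank_eq_zero.1 h1
  have h6 : MvPolynomial.homogeneousSubmodule (Fin 3) K d ⊓ J = ⊥ := by
    rw [Submodule.eq_bot_iff]
    rintro f ⟨hf1, hf2⟩
    have h7 : MvPolynomial.X 2 ^ (e - d) * f ∈
        MvPolynomial.homogeneousSubmodule (Fin 3) K e ⊓ J := by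
      refine ⟨?_, ?_⟩
      · have h8 : (MvPolynomial.X 2 ^ (e - d) * f).IsHomogeneous (1 * (e - d) + d) :=
          ((MvPolynomial.isHomogeneous_X K (2 : Fin 3)).pow (e - d)).mul hf1
        rw [one_mul, Nat.sub_add_cancel h] at h8
        exact h8
      · rw [hJ] at hf2 ⊢
        exact Ideal.mul_mem_left _ _ hf2
    rw [h5, Submodule.mem_bot] at h7
    rcases mul_eq_zero.1 h7 with h8 | h8
    · exact absurd h8 (pow_ne_zero _ (MvPolynomial.X_ne_zero 2))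
    · exact h8
  rw [h6, finrank_bot]

theorem wide_exp (hC : Corank) (hC2 : Corank2) (hcard : S_CardHX) (hR : S_RankHX)
    {n : ℕ} {d : ℕ} {w : Fin n → ℕ} (h : Wide d w)
    {K : Type} [Field K] [CharZero K] {P : Fin n → Fin 2 → K}
    (hP : AlgebraicIndependent ℚ (fun ij : Fin n × Fin 2 => P ij.1 ij.2)) : ExpDim K w P d := by
  rcases h with h | ⟨e, h1, h2, h3⟩
  · exact wideAt_exp hC hC2 hcard hR h hP
  · exact exp_low h1 (wideAt_exp hC hC2 hcard hR h2 hP) h3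

end Pool.Agent.H200W
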