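import Pool.Agent.H200W.Stm5
import Pool.Agent.TH442.NF.Nef
import Pool.Agent.Results.MP_309968_ag.SexticDistance

set_option autoImplicit false

/-!
# Real nef classes and quadratic transformations
-/

namespace Pool.Agent.H200W

open Finset Pool.Agent.W609.CR Pool.Agent.TH167.SH
open Pool.Agent.Results.MP_309968_ag.BoundaryRays (MultGE curveClasses curvCone cone_le)
open Pool.Agent.Results.MP_309968_ag.SexticDistance (mult_iff exists_ord)

/-- The class `c H - ∑ x i E i` is nonnegative on the exceptional curves and on all irreducible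
plane curves. -/
def NefR {n : ℕ} (P : Fin n → Fin 2 → ℂ) (c : ℝ) (x : Fin n → ℝ) : Prop :=
  (∀ i, 0 ≤ x i) ∧ ∀ (G : MvPolynomial (Fin 3) ℂ) (e : ℕ) (u : Fin n → ℕ), Irreducible G →
    G.IsHomogeneous e → (∀ j, Ord (aff (P j)) (u j) G) → ∑ i, x i * (u i : ℝ) ≤ c * e

/-- The coefficients after the quadratic transformation with the base points `i 0, i 1, i 2`. -/
def qx {n : ℕ} (i : Fin 3 → Fin n) (c : ℝ) (x : Fin n → ℝ) : Fin n → ℝ := fun j =>
  if j = i 0 then c - (x (i 1) + x (i 2)) else
  if j = i 1 then c - (x (i 0) + x (i 2)) else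
  if j = i 2 then c - (x (i 0) + x (i 1)) else x j

/-- The degree after the quadratic transformation. -/
def qc {n : ℕ} (i : Fin 3 → Fin n) (c : ℝ) (x : Fin n → ℝ) : ℝ :=
  2 * c - (x (i 0) + x (i 1) + x (i 2))

theorem sum_three {n : ℕ} {i : Fin 3 → Fin n} (hi : Function.Injective i) (f g : Fin n → ℝ)
    (h : ∀ j, (∀ k, j ≠ i k) → f j = g j) :
    ∑ j, f j = ∑ j, g j + ((f (i 0) - g (i 0)) + (f (i 1) - g (i 1)) + (f (i 2) - g (i 2))) := by
  classical
  have h1 : ∑ j, (f j - g j) = ∑ k, (f (i k) - g (i k)) := by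
    rw [← Finset.sum_image (s := Finset.univ) (g := i) (f := fun j => f j - g j)
      (fun a _ b _ hab => hi hab)]
    symm
    refine Finset.sum_subset (Finset.subset_univ _) fun j _ hj => ?_
    rw [h j (fun k hk => hj (Finset.mem_image.2 ⟨k, Finset.mem_univ _, hk.symm⟩)), sub_self]
  rw [Finset.sum_sub_distrib, Fin.sum_univ_three] at h1
  linarith

theorem qx_base {n : ℕ} {i : Fin 3 → Fin n} (hi : Function.Injective i) (c : ℝ) (x : Fin n → ℝ) :
    qx i c x (i 0) = c - (x (i 1) + x (i 2)) ∧ qx i c x (i 1) = c - (x (i 0) + x (i 2)) ∧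
      qx i c x (i 2) = c - (x (i 0) + x (i 1)) := by
  have h01 : i 1 ≠ i 0 := fun h => by simpa using hi h
  have h02 : i 2 ≠ i 0 := fun h => by simpa using hi h
  have h12 : i 2 ≠ i 1 := fun h => by simpa using hi h
  unfold qx
  refine ⟨by simp, by simp [h01], by simp [h02, h12]⟩

theorem qx_other {n : ℕ} {i : Fin 3 → Fin n} (c : ℝ) (x : Fin n → ℝ) {j : Fin n}
    (h : ∀ k, j ≠ i k) : qx i c x j = x j := by
  unfold qx
  rw [if_neg (h 0), if_neg (h 1), if_neg (h 2)]

/-- the self-intersection is invariant -/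
theorem q_sq {n : ℕ} {i : Fin 3 → Fin n} (hi : Function.Injective i) (c : ℝ) (x : Fin n → ℝ) :
    qc i c x ^ 2 - ∑ j, qx i c x j ^ 2 = c ^ 2 - ∑ j, x j ^ 2 := by
  obtain ⟨h0, h1, h2⟩ := qx_base hi c x
  rw [sum_three hi (fun j => qx i c x j ^ 2) (fun j => x j ^ 2)
    (fun j hj => by simp only [qx_other c x hj]), h0, h1, h2]
  unfold qc
  ring

/-- the quadratic transformation is an involution -/
theorem q_invol {n : ℕ} {i : Fin 3 → Fin n} (hi : Function.Injective i) (c : ℝ) (x : Fin n → ℝ) :
    qc i (qc i c x) (qx i c x) = c ∧ qx i (qc i c x) (qx i c x) = x := by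
  obtain ⟨h0, h1, h2⟩ := qx_base hi c x
  constructor
  · unfold qc at *
    rw [h0, h1, h2]
    ring
  · funext j
    by_cases hj : ∀ k, j ≠ i k
    · rw [qx_other _ _ hj, qx_other _ _ hj]
    · push Not at hj
      obtain ⟨k, rfl⟩ := hj
      obtain ⟨g0, g1, g2⟩ := qx_base hi (qc i c x) (qx i c x)
      fin_cases k
      · simp only [Fin.zero_eta] at *
        rw [g0, h1, h2]
        unfold qc
        ring
      · simp only [Fin.mk_one] at *
        rw [g1, h0, h2]
        unfold qc
        ring
      · have e : (⟨2, by norm_num⟩ : Fin 3) = 2 := rfl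
        simp only [e]
        rw [g2, h0, h1]
        unfold qc
        ring

theorem sum_pair {n : ℕ} {a b : Fin n} (hab : a ≠ b) (x : Fin n → ℝ) :
    ∑ j, x j * (((if j = a ∨ j = b then 1 else 0 : ℕ)) : ℝ) = x a + x b := by
  classical
  have h : ∀ j, x j * (((if j = a ∨ j = b then 1 else 0 : ℕ)) : ℝ) =
      (if j = a then x j else 0) + (if j = b then x j else 0) := by
    intro j
    by_cases h1 : j = a
    · subst h1
      simp [hab]
    · by_cases h2 : j = b
      · subst h2
        simp [h1]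
      · simp [h1, h2]
  rw [Finset.sum_congr rfl fun j _ => h j, Finset.sum_add_distrib, Finset.sum_ite_eq',
    Finset.sum_ite_eq']
  simp

theorem NefR.pair {n : ℕ} {P : Fin n → Fin 2 → ℂ}
    (hP : AlgebraicIndependent ℚ (fun ij : Fin n × Fin 2 => P ij.1 ij.2)) {c : ℝ} {x : Fin n → ℝ}
    (h : NefR P c x) {a b : Fin n} (hab : a ≠ b) : x a + x b ≤ c := by
  have hE := exc_line hP hab
  have h1 := h.2 _ _ _ hE.irr hE.hom hE.ord
  rw [sum_pair hab] at h1
  simpa using h1

/-- Quadratic transformations preserve nef classes. -/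
theorem NefR.quad {n : ℕ} {c : ℝ} {x : Fin n → ℝ}
    (h : ∀ P : Fin n → Fin 2 → ℂ,
      AlgebraicIndependent ℚ (fun ij : Fin n × Fin 2 => P ij.1 ij.2) → NefR P c x)
    {i : Fin 3 → Fin n} (hi : Function.Injective i) (P : Fin n → Fin 2 → ℂ)
    (hP : AlgebraicIndependent ℚ (fun ij : Fin n × Fin 2 => P ij.1 ij.2)) :
    NefR P (qc i c x) (qx i c x) := by
  obtain ⟨b0, b1, b2⟩ := qx_base hi c x
  have h01 : i 0 ≠ i 1 := fun h => by simpa using hi h
  have h02 : i 0 ≠ i 2 := fun h => by simpa using hi h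
  have h12 : i 1 ≠ i 2 := fun h => by simpa using hi h
  have hN := h P hP
  have p01 := hN.pair hP h01
  have p02 := hN.pair hP h02
  have p12 := hN.pair hP h12
  refine ⟨fun j => ?_, fun G e u hG hGe hu => ?_⟩
  · by_cases hj : ∀ k, j ≠ i k
    · rw [qx_other _ _ hj]
      exact hN.1 j
    · push Not at hj
      obtain ⟨k, rfl⟩ := hj
      fin_cases k
      · simp only [Fin.zero_eta]
        rw [b0]
        linarith
      · simp only [Fin.mk_one]
        rw [b1]
        linarith
      · have e : (⟨2, by norm_num⟩ : Fin 3) = 2 := rfl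
        simp only [e]
        rw [b2]
        linarith
  · by_cases q : PS i e u
    · obtain ⟨P', hP', hr⟩ := exists_crel hP hi
      obtain ⟨G', h1, h2, h3⟩ := hr.irr hG hGe hu q.p01 q.p02 q.p12
      have h4 := (h P' hP').2 G' _ _ h1 h2 h3
      have q0 := q.p01
      have q1 := q.p02
      have q2 := q.p12
      have hd : ((2 * e - (u (i 0) + u (i 1) + u (i 2)) : ℕ) : ℝ) =
          2 * e - (u (i 0) + u (i 1) + u (i 2)) := by
        rw [Nat.cast_sub (by omega)]
        push_cast
        ring
      have w0 : ((wcr e i u (i 0) : ℕ) : ℝ) = e - (u (i 1) + u (i 2)) := by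
        unfold wcr
        rw [if_pos rfl, Nat.cast_sub q2]
        push_cast
        ring
      have w1 : ((wcr e i u (i 1) : ℕ) : ℝ) = e - (u (i 0) + u (i 2)) := by
        unfold wcr
        rw [if_neg h01.symm, if_pos rfl, Nat.cast_sub q1]
        push_cast
        ring
      have w2 : ((wcr e i u (i 2) : ℕ) : ℝ) = e - (u (i 0) + u (i 1)) := by
        unfold wcr
        rw [if_neg h02.symm, if_neg h12.symm, if_pos rfl, Nat.cast_sub q0]
        push_cast
        ring
      have wo : ∀ j, (∀ k, j ≠ i k) → wcr e i u j = u j := by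
        intro j hj
        unfold wcr
        rw [if_neg (hj 0), if_neg (hj 1), if_neg (hj 2)]
      rw [sum_three hi (fun j => x j * ((wcr e i u j : ℕ) : ℝ)) (fun j => x j * (u j : ℝ))
        (fun j hj => by simp only [wo j hj]), w0, w1, w2, hd] at h4
      rw [sum_three hi (fun j => qx i c x j * (u j : ℝ)) (fun j => x j * (u j : ℝ))
        (fun j hj => by simp only [qx_other c x hj]), b0, b1, b2]
      unfold qc
      linarith
    · have key : ∀ a b k : Fin 3, a ≠ b → a ≠ k → b ≠ k → e < u (i a) + u (i b) →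
          ∑ j, qx i c x j * (u j : ℝ) ≤ qc i c x * e := by
        intro a b k hab hak hbk hlt
        have hne : i a ≠ i b := fun h => hab (hi h)
        obtain ⟨he, hu'⟩ := Pool.Agent.TH442.NF.line_of hP hG hGe hu hne hlt
        subst he
        rw [hu']
        have h5 := sum_pair hne (qx i c x)
        simp only [] at h5 ⊢
        rw [h5, Nat.cast_one, mul_one]
        have h6 : qx i c x (i a) + qx i c x (i b) = qc i c x - x (i k) := by
          unfold qc
          fin_cases a <;> fin_cases b <;> fin_cases k <;> simp at hab hak hbk ⊢ <;>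
            (try simp only [b0, b1, b2]) <;> ring
        have h7 := hN.1 (i k)
        linarith
      have hq : ¬ (u (i 0) + u (i 1) ≤ e ∧ u (i 0) + u (i 2) ≤ e ∧ u (i 1) + u (i 2) ≤ e) :=
        fun h => q ⟨h.1, h.2.1, h.2.2⟩
      by_cases c1 : u (i 0) + u (i 1) ≤ e
      · by_cases c2 : u (i 0) + u (i 2) ≤ e
        · by_cases c3 : u (i 1) + u (i 2) ≤ e
          · exact absurd ⟨c1, c2, c3⟩ hq
          · exact key 1 2 0 (by decide) (by decide) (by decide) (by omega)
        · exact key 0 2 1 (by decide) (by decide) (by decide) (by omega)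
      · exact key 0 1 2 (by decide) (by decide) (by decide) (by omega)

/-- nonnegative on all forms -/
theorem NefR.form {n : ℕ} {P : Fin n → Fin 2 → ℂ} {c : ℝ} {x : Fin n → ℝ} (h : NefR P c x)
    {F : MvPolynomial (Fin 3) ℂ} (hF0 : F ≠ 0) : ∀ (e : ℕ) (m : Fin n → ℕ), F.IsHomogeneous e →
      (∀ i, Van (aff (P i)) (m i) F) → ∑ i, x i * (m i : ℝ) ≤ c * e := by
  classical
  have key : F ≠ 0 → ∀ (e : ℕ) (m : Fin n → ℕ), F.IsHomogeneous e →
      (∀ i, Van (aff (P i)) (m i) F) → ∑ i, x i * (m i : ℝ) ≤ c * e := by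
    refine WfDvdMonoid.induction_on_irreducible (motive := fun F => F ≠ 0 → ∀ (e : ℕ)
      (m : Fin n → ℕ), F.IsHomogeneous e →
      (∀ i, Van (aff (P i)) (m i) F) → ∑ i, x i * (m i : ℝ) ≤ c * e) F
      (fun h0 => absurd rfl h0) ?_ ?_
    · intro F hF hF0 e m hFe hm
      have he : e = 0 := by
        obtain ⟨g, hg⟩ := hF.exists_right_inv
        have hg0 : g ≠ 0 := by
          rintro rfl
          rw [mul_zero] at hg
          exact zero_ne_one hg
        have h3 := MvPolynomial.totalDegree_mul_of_isDomain hF0 hg0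
        rw [hg, hFe.totalDegree hF0, MvPolynomial.totalDegree_one] at h3
        omega
      have h3 : ∀ i, m i = 0 := fun i => by
        have := van_le hF0 hFe (hm i)
        omega
      rw [he]
      simp [h3]
    · intro F G hF0 hG ih hGF e m hFe hm
      have hGh := Pool.Agent.Chud.homog_of_dvd hFe hGF ⟨F, rfl⟩
      have hFh := Pool.Agent.Chud.homog_of_dvd hFe hGF ⟨G, mul_comm _ _⟩
      have hdeg : e = G.totalDegree + F.totalDegree := by
        rw [← MvPolynomial.totalDegree_mul_of_isDomain hG.ne_zero hF0, hFe.totalDegree hGF]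
      choose u hu using fun i => exists_ord (a := P i) hG.ne_zero hGh
      have h3 : ∑ i, x i * (u i : ℝ) ≤ c * G.totalDegree := h.2 G _ u hG hGh hu
      have h4 := ih hF0 _ (fun i => m i - u i) hFh fun i => by
        rcases le_total (u i) (m i) with h5 | h5
        · refine van_of_mul (hu i) ?_
          rw [Nat.add_sub_cancel' h5]
          exact hm i
        · rw [Nat.sub_eq_zero_of_le h5]
          exact van_zero _ _
      have h5 : ∑ i, x i * (m i : ℝ) ≤
          ∑ i, (x i * (u i : ℝ) + x i * ((m i - u i : ℕ) : ℝ)) := by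
        refine Finset.sum_le_sum fun i _ => ?_
        rw [← mul_add]
        refine mul_le_mul_of_nonneg_left ?_ (h.1 i)
        have : m i ≤ u i + (m i - u i) := by omega
        exact_mod_cast this
      rw [Finset.sum_add_distrib] at h5
      rw [hdeg]
      push_cast
      linarith
  exact fun e m hFe hm => key hF0 e m hFe hm

/-- nonnegative on the closed cone of curves -/
theorem NefR.cone {n : ℕ} {P : Fin n → Fin 2 → ℂ} {c : ℝ} {x : Fin n → ℝ} (h : NefR P c x) :
    ∀ z ∈ curvCone P, 0 ≤ c * z.1 - ∑ i, x i * z.2 i := by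
  intro z hz
  have h1 := cone_le (p := P) (l := x) (g := id) (c := c) h.1
    (fun F e m hF he hF0 hm => by
      have h1 := h.form hF0 e m hF ((mult_iff hF m).1 hm)
      simp only [id]
      linarith) z hz
  simp only [id] at h1
  linarith

/-- Classes with a large multiple of the line are nef. -/
theorem nefR_line {n : ℕ} (P : Fin n → Fin 2 → ℂ) {c : ℝ} {x : Fin n → ℝ} (h0 : ∀ i, 0 ≤ x i)
    (h : ∑ i, x i ≤ c) : NefR P c x := by
  refine ⟨h0, fun G e u hG hGe hu => ?_⟩
  have h1 : ∀ i, x i * (u i : ℝ) ≤ x i * e := fun i =>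
    mul_le_mul_of_nonneg_left (by exact_mod_cast van_le hG.ne_zero hGe (hu i).1) (h0 i)
  calc ∑ i, x i * (u i : ℝ) ≤ ∑ i, x i * (e : ℝ) := Finset.sum_le_sum fun i _ => h1 i
    _ = (∑ i, x i) * e := by rw [Finset.sum_mul]
    _ ≤ c * e := mul_le_mul_of_nonneg_right h (Nat.cast_nonneg _)

/-- A nef class plus a positive multiple of the line, with positive coefficients, is ample. -/
theorem NefR.ample {n : ℕ} {P : Fin n → Fin 2 → ℂ} {c c' : ℝ} {x : Fin n → ℝ} (h : NefR P c x)
    (hc : c < c') (hx : ∀ i, 0 < x i) :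
    ∀ z ∈ curvCone P, z ≠ 0 → 0 < c' * z.1 - ∑ i, x i * z.2 i := by
  classical
  intro z hz hz0
  have h1 := h.cone z hz
  have hz1 : 0 ≤ z.1 := by
    have h2 := (nefR_line P (c := 1) (x := fun _ : Fin n => 0) (fun _ => le_rfl)
      (by simp)).cone z hz
    simp only [zero_mul, Finset.sum_const_zero, sub_zero] at h2
    linarith
  rcases hz1.eq_or_lt with h2 | h2
  · rw [← h2, mul_zero, zero_sub]
    have h3 : ∀ i, z.2 i ≤ 0 := by
      intro i
      have h4 := (nefR_line P (c := 1) (x := fun j : Fin n => if j = i then 1 else 0)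
        (fun j => by split_ifs <;> norm_num) (by simp)).cone z hz
      simp only [ite_mul, one_mul, zero_mul, Finset.sum_ite_eq', Finset.mem_univ, if_true] at h4
      rw [← h2] at h4
      linarith
    have h5 : ∃ i, z.2 i ≠ 0 := by
      by_contra hcon
      push Not at hcon
      exact hz0 (Prod.ext h2.symm (funext hcon))
    obtain ⟨i, hi⟩ := h5
    have h6 : ∑ j, x j * z.2 j < ∑ _j : Fin n, (0 : ℝ) := by
      refine Finset.sum_lt_sum (fun j _ => mul_nonpos_of_nonneg_of_nonpos (hx j).le (h3 j))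
        ⟨i, Finset.mem_univ _, mul_neg_of_pos_of_neg (hx i) (lt_of_le_of_ne (h3 i) hi)⟩
    rw [Finset.sum_const_zero] at h6
    linarith
  · have h3 := mul_pos (sub_pos.2 hc) h2
    linarith

end Pool.Agent.H200W
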