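import Pool.Agent.H200W.Def

/-! # Project WR: statements of the lemmas, with their proofs. Part 1: flattening, cutting, nodes. -/

set_option autoImplicit false

namespace Pool.Agent.H200W

open Finset Pool.Agent.TH176.Nag Pool.Agent.TH603.Sur Pool.Agent.TH2.NU Pool.Agent.TH641.UM
open Pool.Agent.Y205.FW Pool.Agent.Y205.MD

/-! ## A. Flattening and cutting -/

/-- A1. Pushing the rows to the left. Proof: `Sur.comap` with the swap of the coordinates and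
`Sur_flat0` (TH603/Sur/Flat.lean; see `Pool.Agent.Y205.FW.Sur_row` for the same kind of argument): the
row `y` of `S` contains all integers of the open interval `(lo y, lo y + q y)`, at least as many as
there are integers `x` with `0 < x < q y`; a shift by one is needed since `Sur_flat0` counts from `0`.
`SurM M S` is `Sur (fun i => M.toList.get i) S` by definition. -/
def S_RowS : Prop := ∀ {M : Multiset ℕ} {S : Set (ℤ × ℤ)} (lo q : ℤ → ℝ),
  (∀ x y : ℤ, lo y < x → (x : ℝ) < lo y + q y → (x, y) ∈ S) →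
  SurM M {p | 0 < p.1 ∧ (p.1 : ℝ) < q p.2} → SurM M S

/-- A2. Pushing the columns down. Same as A1 without the swap. -/
def S_ColS : Prop := ∀ {M : Multiset ℕ} {S : Set (ℤ × ℤ)} (lo q : ℤ → ℝ),
  (∀ x y : ℤ, lo x < y → (y : ℝ) < lo x + q x → (x, y) ∈ S) →
  SurM M {p | 0 < p.2 ∧ (p.2 : ℝ) < q p.1} → SurM M S

/-- A3. Pushing the rows to the left, emptiness. `Emp_flat0` (TH176/Nag/Flat.lean) and `Emp.comap`:
a closed interval of length `q` contains at most `⌊q⌋ + 1` integers. -/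
def S_RowE : Prop := ∀ {M : Multiset ℕ} {S : Set (ℤ × ℤ)} (lo q : ℤ → ℝ),
  (∀ x y : ℤ, (x, y) ∈ S → lo y ≤ x ∧ (x : ℝ) ≤ lo y + q y) →
  EmpM M {p | 0 ≤ p.1 ∧ (p.1 : ℝ) ≤ q p.2} → EmpM M S

/-- A4. Pushing the columns down, emptiness. -/
def S_ColE : Prop := ∀ {M : Multiset ℕ} {S : Set (ℤ × ℤ)} (lo q : ℤ → ℝ),
  (∀ x y : ℤ, (x, y) ∈ S → lo x ≤ y ∧ (y : ℝ) ≤ lo x + q x) →
  EmpM M {p | 0 ≤ p.2 ∧ (p.2 : ℝ) ≤ q p.1} → EmpM M S

/-- A5. Cutting by a line of real slope, independence. Proof: `SurM` gives finite sets `T1 ⊆ S1`,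
`T2 ⊆ S2` (`Sur` is existence of a finite `T` of exactly `cond` elements with `Emp` on it); apply
`Pool.Agent.TH102.DP.Emp_cutR` (TH102/DP/Cut.lean, real slope) or `Pool.Agent.TH366.RC.Emp_cutR`,
after a translation into the first quadrant (`Emp.comap`) if needed, as in
`Pool.Agent.TH335.EN.Sur_cut` (TH335/EN/EndS.lean). The two sets are disjoint. For multisets use
`SurM_iff`, `ms_sum`, `ms_toList`. The case `α = 0` (horizontal line) is included: use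
`exists_int_sep` of TH366/RC/Cut.lean. -/
def S_CutS : Prop := ∀ {M M' : Multiset ℕ} {S S1 S2 : Set (ℤ × ℤ)} (α β c : ℝ),
  (∀ p ∈ S1, p ∈ S ∧ α * p.1 + β * p.2 ≤ c) → (∀ p ∈ S2, p ∈ S ∧ c < α * p.1 + β * p.2) →
  SurM M S1 → SurM M' S2 → SurM (M + M') S

/-- A6. Cutting by a line of real slope, emptiness. `S` is finite, so one may replace `S1`, `S2` by
their intersections with `S`; then `Emp_cutR` as above. -/
def S_CutE : Prop := ∀ {M M' : Multiset ℕ} {S S1 S2 : Set (ℤ × ℤ)} (α β c : ℝ), S.Finite →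
  (∀ p ∈ S, (p ∈ S1 ∧ α * p.1 + β * p.2 ≤ c) ∨ (p ∈ S2 ∧ c < α * p.1 + β * p.2)) →
  EmpM M S1 → EmpM M' S2 → EmpM (M + M') S

/-! ## B. Trapezoids -/

/-- B1. Strips with rows of length decreasing linearly from `B` to `B - s h ≥ 0`, or increasing
linearly from `B - s h` to `B`, independence. Proof: A1 with `q y` the length of the row if
`y0 < y < y0 + h` (and `0` otherwise), then A2: in the first case the column `x > 0` of
`{0 < x < B - s (y - y0), y0 < y < y0 + h}` contains all integers `y` of an open interval of length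
`min h ((B - x) / s)` (`h` if `s = 0` and `x < B`), which begins at `y0`, in the second case one of the
same length which ends at `y0 + h`. Then monotonicity (`Sur.mono`). -/
def S_LinS : Prop := ∀ {M : Multiset ℕ} {S : Set (ℤ × ℤ)} (l : ℤ → ℝ) (B s y0 h : ℝ), 0 < h →
  0 ≤ s → 0 ≤ B - s * h →
  ((∀ p : ℤ × ℤ, y0 < p.2 → (p.2 : ℝ) < y0 + h → l p.2 < p.1 →
      (p.1 : ℝ) < l p.2 + (B - s * (p.2 - y0)) → p ∈ S) ∨
    (∀ p : ℤ × ℤ, y0 < p.2 → (p.2 : ℝ) < y0 + h → l p.2 < p.1 →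
      (p.1 : ℝ) < l p.2 + (B - s * (y0 + h - p.2)) → p ∈ S)) →
  SurM M (TO B s h) → SurM M S

/-- B1E. The same for emptiness (closed intervals; the rows outside of `[y0, y0 + h]` are empty, take
`q y = -1` there). -/
def S_LinE : Prop := ∀ {M : Multiset ℕ} {S : Set (ℤ × ℤ)} (l : ℤ → ℝ) (B s y0 h : ℝ), 0 < h →
  0 ≤ s → 0 ≤ B - s * h →
  ((∀ p ∈ S, y0 ≤ (p.2 : ℝ) ∧ (p.2 : ℝ) ≤ y0 + h ∧ l p.2 ≤ (p.1 : ℝ) ∧
      (p.1 : ℝ) ≤ l p.2 + (B - s * (p.2 - y0))) ∨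
    (∀ p ∈ S, y0 ≤ (p.2 : ℝ) ∧ (p.2 : ℝ) ≤ y0 + h ∧ l p.2 ≤ (p.1 : ℝ) ∧
      (p.1 : ℝ) ≤ l p.2 + (B - s * (y0 + h - p.2)))) →
  EmpM M (TC B s h) → EmpM M S

/-- B2. Strips with one corner: the rows have the length `e + min (α (y - y0)) (β (y0 + h - y))`,
`α + β = 1`. Proof: A1, then A2: the column `x > 0` contains all integers of the open interval
`(y0, y0 + h)` if `x ≤ e`, and of `(y0 + (x - e) / α, y0 + h - (x - e) / β)`, of length
`h - (x - e) / (α β)`, if `e < x < e + α β h` (then `α, β > 0`); this contains the columns of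
`TO (e + α β h) (α β) h`. -/
def S_BumpS : Prop := ∀ {M : Multiset ℕ} {S : Set (ℤ × ℤ)} (l : ℤ → ℝ) (e α β y0 h : ℝ), 0 < h →
  0 ≤ e → 0 ≤ α → 0 ≤ β → α + β = 1 →
  (∀ p : ℤ × ℤ, y0 < p.2 → (p.2 : ℝ) < y0 + h → l p.2 < p.1 →
    (p.1 : ℝ) < l p.2 + (e + min (α * (p.2 - y0)) (β * (y0 + h - p.2))) → p ∈ S) →
  SurM M (TO (e + α * β * h) (α * β) h) → SurM M S

/-- B2E. The same for emptiness. -/
def S_BumpE : Prop := ∀ {M : Multiset ℕ} {S : Set (ℤ × ℤ)} (l : ℤ → ℝ) (e α β y0 h : ℝ), 0 < h →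
  0 ≤ e → 0 ≤ α → 0 ≤ β → α + β = 1 →
  (∀ p ∈ S, y0 ≤ (p.2 : ℝ) ∧ (p.2 : ℝ) ≤ y0 + h ∧ l p.2 ≤ (p.1 : ℝ) ∧
    (p.1 : ℝ) ≤ l p.2 + (e + min (α * (p.2 - y0)) (β * (y0 + h - p.2)))) →
  EmpM M (TC (e + α * β * h) (α * β) h) → EmpM M S

/-- B3. Flattening of a trapezoid in the direction `(1, 1)`. Proof: `Sur.comap` (resp. `Emp.comap`)
with `(x, y) ↦ (c, y)`, `c = x - y`, turns `TO B s h` into `0 < y < h`, `-y < c < B - (s + 1) y`.
Columns: for `-h < c ≤ 0` all `y` in `(-c, h)` (note `c ≤ 0 ≤ B - s h - h ≤ B - (s + 1) y`), for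
`0 < c` all `y` in `(0, min h ((B - c) / (s + 1)))`. After A2 one has the set
`0 < j`, `j < h`, `-(h - j) < c < B - (s + 1) j`, whose rows have the length `B + h - (s + 2) j`; A1 gives
`TO (B + h) (s + 2) h`. -/
def S_DiagS : Prop := ∀ {M : Multiset ℕ} {B s h : ℝ}, 0 < h → 0 ≤ s → h ≤ B - s * h →
  SurM M (TO (B + h) (s + 2) h) → SurM M (TO B s h)

/-- B3E. -/
def S_DiagE : Prop := ∀ {M : Multiset ℕ} {B s h : ℝ}, 0 < h → 0 ≤ s → h ≤ B - s * h →
  EmpM M (TC (B + h) (s + 2) h) → EmpM M (TC B s h)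

/-- B4. The node, independence. Proof: `StSeq` holds (`Pool.Agent.Y100.FW.seq Pool.Agent.Y665.FW.key`).
Put `m j = ⌈B + 1 - 2 s (j + 1)⌉ - 1`, the largest integer less than `B + 1 - 2 s (j + 1)`, so
`m j ≥ B - 2 s (j + 1)`; let `L` be the number of `j ≥ 0` with `2 (j + 1) < h` and
`0 < 2 B - 1 - 4 s (j + 1)` (an initial segment). Then `m j ≥ 1` for `j < L`, and
`m (j + 1) + 3 ≤ m j` since `2 s ≥ 4`. `WMS m L` (rows `2 j` with `0 ≤ x ≤ m j`, rows `2 j + 1` with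
`0 ≤ x ≤ m j - 2`), shifted by `(1, 1)`, is contained in `TO B s h`: the row `2 j + 1` has
`x ≤ m j + 1 < B + 2 - 2 s (j + 1) ≤ B - s (2 j + 1)` as `s ≥ 2`, the row `2 j + 2` has
`x ≤ m j - 1 < B - s (2 j + 2)`. The node set of `StSeq` contains the set below, shifted by one row, as
`2 m j - 1 ≥ 2 B - 1 - 4 s (j + 1)`; rows of `WO` of nonpositive length are empty. `StSeq` needs
`x + y ≤ 1` and `x / y` irrational: `WO (2 B - 1) (4 s) y (h / 2)` is finite and given by strict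
inequalities, so `1 - y` may be replaced by a slightly smaller `x > 0` with `x / y` irrational. See
`Pool.Agent.Y205.FW.Sur_LJ` (Y205/FW/Donor.lean) for the same computation for triangles. -/
def S_NodeS : Prop := ∀ {M : Multiset ℕ} {B s y h : ℝ}, 0 < h → 2 ≤ s → 0 < y → y < 1 →
  SurM M (WO (2 * B - 1) (4 * s) y (h / 2)) → SurM M (TO B s h)

/-- B4E. The node, emptiness. Proof: `Pool.Agent.Y665.FW.key : StKey`. Put `m j = ⌊B - 2 s j⌋` and let
`L` be the number of `j ≥ 0` with `2 j ≤ h`, `0 ≤ B - 2 s j`; `TC B s h ⊆ WMS m L` (for the row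
`2 j + 1`: `x ≤ B - s (2 j + 1)`, `x + 2 ≤ B - 2 s j` as `s ≥ 2`), `m (j + 1) + 3 ≤ m j` as `2 s ≥ 3`.
Take `a = 1 / (1 - y)`, `b = 1 / y` and `ω W = 2 W + ε`:
`⌈(1 - y) ω⌉ + ⌈y ω⌉ ≥ ω > 2 W`, so at least `2 W + 1`. For `ε > 0` small (finitely many rows) the set
`SSS m L a b ω` = `{0 ≤ j < L, -(y (2 m j + ε)) < x < (1 - y) (2 m j + ε)}` is contained in
`{0 ≤ j < L, -(y * 2 m j) ≤ x ≤ (1 - y) * 2 m j}`, hence in `WC (2 B) (4 s) y (h / 2)`. -/
def S_NodeE : Prop := ∀ {M : Multiset ℕ} {B s y h : ℝ}, 0 ≤ B → 0 < h → 2 ≤ s → 0 < y → y < 1 →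
  EmpM M (WC (2 * B) (4 * s) y (h / 2)) → EmpM M (TC B s h)

/-- B5. Flattening of the two-sided trapezoid of a node to a right triangle. Here
`T = (s + θ) h`, so the top row has the length `θ h`, and `K = y s + θ` is an integer. Proof: put
`c = x - K j` (`Sur.comap`). The left boundary becomes `c = -y T - θ j`, the right one
`c = (1 - y) T - (s + θ) j`; at `j = h` the latter is `-y T`, the left boundary at `j = 0`. Columns:
for `c ≥ -y T` all `j` in `(0, ((1 - y) T - c) / (s + θ))`, for `-y T - θ h < c < -y T` all `j` in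
`((-y T - c) / θ, h)`, of length `h - (-y T - c) / θ`. After A2: `0 < j < h`,
`-y T - θ (h - j) < c < (1 - y) T - (s + θ) j`, with rows of length `T + θ h - (s + 2 θ) j`, and
`T + θ h = (s + 2 θ) h`. A1 gives `RO (T + θ h) (s + 2 θ)`. -/
def S_KTrapS : Prop := ∀ {M : Multiset ℕ} {T s y h θ : ℝ} (K : ℤ), 0 < h → 0 < s → 0 ≤ θ →
  0 ≤ y → y ≤ 1 → (K : ℝ) = y * s + θ → T = (s + θ) * h →
  SurM M (RO (T + θ * h) (s + 2 * θ)) → SurM M (WO T s y h)

/-- B5E. -/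
def S_KTrapE : Prop := ∀ {M : Multiset ℕ} {T s y h θ : ℝ} (K : ℤ), 0 < h → 0 < s → 0 ≤ θ →
  0 ≤ y → y ≤ 1 → (K : ℝ) = y * s + θ → T = (s + θ) * h →
  EmpM M (RC (T + θ * h) (s + 2 * θ)) → EmpM M (WC T s y h)

/-- B6. Flattening of the two-sided triangle of a node to a right triangle of any slope larger than
`s`. Here `T = s h1` and `h1 ≤ h`. Proof: `c = x - K j`, `K = y s + κ`. The left boundary becomes
`c = -y T - κ j`, the right one `c = (1 - y) T - (s + κ) j`; both end at `c = -K h1` for `j = h1`.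
Columns: for `c ≥ -y T` all `j` in `(0, ((1 - y) T - c) / (s + κ))`, for `c < -y T` all `j` in
`((-y T - c) / κ, ((1 - y) T - c) / (s + κ))`. After A2 the region is the triangle with the base
`(-y T - κ h1, (1 - y) T)` and the top `(-y T, T / (s + κ))`; its rows have the length
`(s + κ) h1 - ((s + κ) ^ 2 / s) j`. -/
def S_KTriS : Prop := ∀ {M : Multiset ℕ} {s y h h1 κ : ℝ} (K : ℤ), 0 < h1 → h1 ≤ h → 0 < s →
  0 < κ → 0 ≤ y → y ≤ 1 → (K : ℝ) = y * s + κ →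
  SurM M (RO ((s + κ) * h1) ((s + κ) ^ 2 / s)) → SurM M (WO (s * h1) s y h)

/-- B6E. (Here `h` is arbitrary.) -/
def S_KTriE : Prop := ∀ {M : Multiset ℕ} {s y h h1 κ : ℝ} (K : ℤ), 0 < h1 → 0 < s →
  0 < κ → 0 ≤ y → y ≤ 1 → (K : ℝ) = y * s + κ →
  EmpM M (RC ((s + κ) * h1) ((s + κ) ^ 2 / s)) → EmpM M (WC (s * h1) s y h)

/-- B7. The diagonal flattening of a right triangle. Proof: `c = x - y` turns `RO b ρ` into
`0 < y`, `-y < c`, `c + (1 + ρ) y < b`; columns: `(0, (b - c) / (1 + ρ))` for `c ≥ 0` and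
`(-c, (b - c) / (1 + ρ))`, of length `(b + ρ c) / (1 + ρ)`, for `c < 0`. After A2 the rows `j` have
the length `(b - (1 + ρ) j) + (b - (1 + ρ) j) / ρ`; A1. -/
def S_TipS : Prop := ∀ {M : Multiset ℕ} {b ρ : ℝ}, 0 < b → 0 < ρ →
  SurM M (RO (b * (1 + ρ) / ρ) ((1 + ρ) ^ 2 / ρ)) → SurM M (RO b ρ)

/-- B7E. -/
def S_TipE : Prop := ∀ {M : Multiset ℕ} {b ρ : ℝ}, 0 < b → 0 < ρ →
  EmpM M (RC (b * (1 + ρ) / ρ) ((1 + ρ) ^ 2 / ρ)) → EmpM M (RC b ρ)

end Pool.Agent.H200W
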