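import Pool.Agent.H200W.Stm

/-! # Project WR: statements of the lemmas, with their proofs. Part 2: right triangles and units. -/

set_option autoImplicit false

namespace Pool.Agent.H200W

open Finset Pool.Agent.TH176.Nag Pool.Agent.TH603.Sur Pool.Agent.TH2.NU Pool.Agent.TH641.UM
open Pool.Agent.Y205.FW Pool.Agent.Y205.MD

/-! ## C. From trapezoids to right triangles -/

/-- C1. Right triangles may be made flatter, to any height `η` a little below half of the height: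
the loss of twice the area is `b / ρ - 1 / (4 ρ)`. Proof (from B4, B6): `RO b ρ = TO b ρ h` for
`h = b / ρ + 1` (say); by B4 it suffices to have `WO (2 b - 1) (4 ρ) y (h / 2)`. Put
`h1 = (2 b - 1) / (4 ρ) > η`, `κ = (2 b - 1) / η - 4 ρ > 0`, `K = ⌊κ⌋ + 1`,
`y = (K - κ) / (4 ρ) ∈ (0, 1 / 8]`. B6 with `s = 4 ρ` gives
`RO ((s + κ) h1) ((s + κ) ^ 2 / s)`, and `(s + κ) h1 = (2 b - 1) ^ 2 / (4 ρ η)`,
`(s + κ) ^ 2 / s = (2 b - 1) ^ 2 / (4 ρ η ^ 2)`. -/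
def S_SqS : Prop := S_NodeS → S_KTriS → ∀ {M : Multiset ℕ} {b ρ η : ℝ}, 2 ≤ ρ → 0 < η →
  4 * ρ * η < 2 * b - 1 →
  SurM M (RO ((2 * b - 1) ^ 2 / (4 * ρ * η)) ((2 * b - 1) ^ 2 / (4 * ρ * η ^ 2))) → SurM M (RO b ρ)

/-- C1E. Without loss. `RC b ρ = TC b ρ h` for `h = b / ρ + 1`; B4E, then B6E with
`κ = 2 b / η - 4 ρ > 0`, `h1 = b / (2 ρ)`. -/
def S_SqE : Prop := S_NodeE → S_KTriE → ∀ {M : Multiset ℕ} {b ρ η : ℝ}, 2 ≤ ρ → 0 < η →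
  2 * ρ * η < b →
  EmpM M (RC (b ^ 2 / (ρ * η)) (b ^ 2 / (ρ * η ^ 2))) → EmpM M (RC b ρ)

/-- C2. A trapezoid of slope `s ≥ 2` and top at least `1 / 2` becomes a right triangle of half the
height; `σ = 4 (2 B - s h - 1) / h`. Proof (from B4, B5): B5 with `T = 2 B - 1`, slope `4 s`, height
`h / 2`, `θ = (4 B - 2 - 4 s h) / h ≥ 0`, `K = ⌊θ⌋ + 1`, `y = (K - θ) / (4 s) ∈ (0, 1 / 8]`;
`4 s + 2 θ = σ`, `T + θ h / 2 = σ h / 2`. -/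
def S_TrapS : Prop := S_NodeS → S_KTrapS → ∀ {M : Multiset ℕ} {B s h : ℝ}, 0 < h → 2 ≤ s →
  1 / 2 ≤ B - s * h →
  SurM M (RO (4 * (2 * B - s * h - 1) / h * (h / 2)) (4 * (2 * B - s * h - 1) / h)) →
  SurM M (TO B s h)

/-- C2E. Without loss, `σ = 4 (2 B - s h) / h`. B5E with `T = 2 B`, `θ = (4 B - 4 s h) / h`. -/
def S_TrapE : Prop := S_NodeE → S_KTrapE → ∀ {M : Multiset ℕ} {B s h : ℝ}, 0 < h → 2 ≤ s →
  0 ≤ B - s * h →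
  EmpM M (RC (4 * (2 * B - s * h) / h * (h / 2)) (4 * (2 * B - s * h) / h)) → EmpM M (TC B s h)

/-! ## D. Units -/

/-- D0E. `N` points of multiplicity `a` on the right triangle of slope `N`. Proof: the row `y` has
at most `N (a - y)` exponents `0 ≤ x ≤ b - N y` (none if `b < N y`), as `b < N a`; use
`Pool.Agent.TH603.Sur.Emp_rows` (TH603/Sur/Rows.lean) with `A = 0`. -/
def S_RowsE : Prop := ∀ {N a : ℕ} {b : ℝ}, 1 ≤ N → b < N * a →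
  EmpM (Multiset.replicate N a) (RC b N)

/-- D2. A block. Proof. The triangles `RO (ρ h) ρ` increase with `ρ`, so let
`ρ h ^ 2 = N (a + 1) ^ 2 + 2 h`. Put `ρ1 = (N (a + 1) ^ 2 + h) / h ^ 2 = ρ - 1 / h`. Note
`N ≥ 4 h / (a + 1) ≥ 32`, `h ≥ 8`.
If `ρ1 ≥ 2`: `Pool.Agent.Y205.FW.Sur_donor` (Y205/FW/Donor.lean; `StSeq` is
`Pool.Agent.Y100.FW.seq Pool.Agent.Y665.FW.key`) with `H = h`, slopes `μ = 0`, `ν = ρ1`, `α = 0`: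
`4 ρ1 ≤ N / 16 + 4 / h ≤ N`; `RegO 0 (ρ1 h) 0 ρ1 = RO (ρ1 h) ρ1 ⊆ RO (ρ h) ρ`.
If `ρ1 < 2`: then `ρ < 2 + 1 / 8`. By B7 it suffices to have `RO (h (1 + ρ)) ρ'`,
`ρ' = (1 + ρ) ^ 2 / ρ ≥ 4`, of height `h' = h ρ / (1 + ρ) ≤ h` and `ρ' h' ^ 2 = ρ h ^ 2`. Let
`H > 0` be the root of `ρ' H ^ 2 - H = N (a + 1) ^ 2`; `H ≤ h'` since
`ρ' h' ^ 2 - h' ≥ N (a + 1) ^ 2 + h`. `H ≥ 1` because `ρ' H ^ 2 ≥ N (a + 1) ^ 2 ≥ N`
and `4 ρ' ≤ N`: indeed `ρ' = ρ + 2 + 1 / ρ` and `1 / ρ ≤ h ^ 2 / (N (a + 1) ^ 2) ≤ N / 16` (as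
`4 h ≤ N (a + 1)`), so `4 ρ' ≤ 16.5 + N / 4 ≤ N`. `Sur_donor` on `RegO 0 (ρ' H) 0 ρ'`. -/
def S_BlockS : Prop := S_TipS → ∀ {N a : ℕ} {h : ℝ}, 8 * ((a : ℝ) + 1) ≤ h →
  4 * h ≤ N * ((a : ℝ) + 1) →
  UnitS h (Multiset.replicate N a) (N * ((a : ℝ) + 1) ^ 2 + 2 * h)

/-- D2E. A block, emptiness. Proof. The triangles increase with `ρ`, so we may assume
`ρ h ^ 2 = N a ^ 2 - 1`. `N ≥ 4 h / a ≥ 32`.
If `ρ ≥ 2`: C1E with `b = ρ h` and `η = b / √(ρ N)`, so `b ^ 2 / (ρ η ^ 2) = N`,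
`b ^ 2 / (ρ η) = h √(ρ N) < N a`; `2 ρ η < b` means `4 ρ < N`, and `ρ < N a ^ 2 / h ^ 2 ≤ N / 64`. D0E.
If `ρ < 2`: B7E, slope `ρ' = (1 + ρ) ^ 2 / ρ = ρ + 2 + 1 / ρ ≥ 4`, base `b' = h (1 + ρ)`,
`b' ^ 2 / ρ' = ρ h ^ 2`; then C1E with `ρ', b'` and `η = b' / √(ρ' N)`: `4 ρ' < N` since
`1 / ρ = h ^ 2 / (N a ^ 2 - 1) ≤ N / 15`. -/
def S_BlockE : Prop := S_SqE → S_NodeE → S_KTriE → S_TipE → S_RowsE → ∀ {N a : ℕ} {h : ℝ},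
  1 ≤ a → 8 * (a : ℝ) ≤ h → 4 * h ≤ N * (a : ℝ) →
  UnitE h (Multiset.replicate N a) (N * (a : ℝ) ^ 2 - 1)

/-- D3. A rare group (`k` points of multiplicity `l`) with a large block. Proof. Let
`ρ h ^ 2 = N (u + 1) ^ 2 + k (l + 1) ^ 2 + 4 h` (monotonicity), so `ρ ≥ 2`. `RO (ρ h) ρ = TO (ρ h) ρ h'`
for large `h'`; by B4 it suffices to have `WO (2 ρ h - 1) (4 ρ) y (h' / 2)`, i.e. with
`H = (2 ρ h - 1) / (4 ρ) = h / 2 - 1 / (4 ρ)`, `Y = 4 ρ y`, `X = 4 ρ (1 - y)` the set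
`RegO (-(Y * H)) (X * H) Y X`. Choose `y = k (l + 1) / (2 ρ h - 1)`, so `Y = k (l + 1) / H`; `y < 1`
as `k (l + 1) ≤ N (u + 1) ^ 2 / h ≤ ρ h`. By `StCorner` (`Pool.Agent.Y839.FW.corner`) it suffices to have
the block on `RegO (-(Z * H)) (X * H) Z X`, `Z = k (l + 1) (H - (l + 1)) / H ^ 2 = Y - k (l + 1) ^ 2 / H ^ 2`.
Let `ρd = (N (u + 1) ^ 2 + H) / H ^ 2`. `Pool.Agent.Y205.FW.Sur_donor` with `μ = Z`, `ν = ρd - Z`,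
`α = -(Z * H)`: `ρd ≥ 2` as `H ≤ h / 2`; `4 ρd ≤ N` as `u + 1 ≤ h / 16 ≤ H / 7` and
`N ≥ 2 h ^ 2 / (u + 1) ^ 2 ≥ 512`; and `ρd ≤ Z + X = 4 ρ - k (l + 1) ^ 2 / H ^ 2` since
`4 ρ H ^ 2 ≥ ρ h ^ 2 - h`, so that `RegO (-(Z * H)) ((ρd - Z) * H) Z (ρd - Z)` is contained in it.
(`Sum.elim` of constant functions: `ms_sum`, `ms_fin`, `SurM_iff`.) -/
def S_RareS : Prop := S_NodeS → ∀ {N u k l : ℕ} {h : ℝ}, 1 ≤ k → 16 * ((u : ℝ) + 1) ≤ h →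
  16 * ((l : ℝ) + 1) ≤ h → 2 * h ^ 2 ≤ N * ((u : ℝ) + 1) ^ 2 →
  k * ((l : ℝ) + 1) * h ≤ N * ((u : ℝ) + 1) ^ 2 →
  UnitS h (Multiset.replicate N u + Multiset.replicate k l)
    (N * ((u : ℝ) + 1) ^ 2 + k * ((l : ℝ) + 1) ^ 2 + 4 * h)

/-- D3c. A group of `k` points of multiplicity `l` in the corner of a closed lattice triangle. Proof.
The row `y < l` of the large triangle begins at `-Y (H - y)`; cut by the line
`x = -Y (H - y) + k (l - y)` (A6). To the left of it (`<`), for `0 ≤ y < l`, the row has exactly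
`k (l - y)` exponents (half-open interval of integral length), and none for `y ≥ l`: empty for the
group by A3-like pushing and `Pool.Agent.TH603.Sur.Emp_rows`. The rest `R` is
`-Y (H - y) + k max 0 (l - y) ≤ x ≤ X (H - y)`, `0 ≤ y ≤ H`. A4: for `x ≥ 0` the column is contained in
`[0, H - x / X]`, for `x = -t < 0` in `[t / (k - Y), H - t / Y]` (`k > Y = k l / H`), of length
`H - t k / (Y (k - Y)) = H - t / Z`, `Z = Y (1 - l / H)`. This gives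
`Reg (-(Z * H)) (X * H) Z X`. See `Pool.Agent.Y839.FW` (CornerCore.lean) for the open version. -/
def S_CornerE : Prop := ∀ {M : Multiset ℕ} {k l : ℕ} {H X : ℝ}, 1 ≤ k → 1 ≤ l → (l : ℝ) < H →
  0 < X → EmpM M (Reg (-(k * l * (H - l) / H ^ 2 * H)) (X * H) (k * l * (H - l) / H ^ 2) X) →
  EmpM (Multiset.replicate k l + M) (Reg (-(k * l / H * H)) (X * H) (k * l / H) X)

/-- D3E. A rare group with a large block, emptiness. Proof. By monotonicity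
`ρ h ^ 2 = N u ^ 2 + k l ^ 2 - 1`, so `ρ ≥ 2` (as `N u ^ 2 ≥ 3 h ^ 2`). `RC (ρ h) ρ = TC (ρ h) ρ h`; by B4E,
with `H = h / 2`, it suffices to treat `WC (2 ρ h) (4 ρ) y H = Reg (-(Y * H)) (X * H) Y X`,
`y = k l / (2 ρ h) < 1`, `Y = 4 ρ y = k l / H`, `X = 4 ρ - Y > 0`. By D3c it remains the block on
`Reg (-(Z * H)) (X * H) Z X`, `Z = k l (H - l) / H ^ 2`, and by A3 on `RC ((Z + X) * H) (Z + X)`, where
`(Z + X) H ^ 2 = 4 ρ H ^ 2 - k l ^ 2 = ρ h ^ 2 - k l ^ 2 = N u ^ 2 - 1`: this is the block lemma with `H` for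
`h` (`8 u ≤ H`, `4 H ≤ N u`). -/
def S_RareE : Prop := S_NodeE → S_CornerE → S_RowE →
  (∀ {N a : ℕ} {h : ℝ}, 1 ≤ a → 8 * (a : ℝ) ≤ h → 4 * h ≤ N * (a : ℝ) →
    UnitE h (Multiset.replicate N a) (N * (a : ℝ) ^ 2 - 1)) →
  ∀ {N u k l : ℕ} {h : ℝ}, 1 ≤ k → 1 ≤ u → 1 ≤ l →
  16 * ((u : ℝ) + 1) ≤ h → 16 * ((l : ℝ) + 1) ≤ h → 3 * h ^ 2 ≤ N * (u : ℝ) ^ 2 →
  k * (l : ℝ) * h ≤ N * (u : ℝ) ^ 2 →
  UnitE h (Multiset.replicate N u + Multiset.replicate k l)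
    (N * (u : ℝ) ^ 2 + k * (l : ℝ) ^ 2 - 1)

/-! ## E. Good sets -/

/-- E1. Lists of units on a right triangle. Proof by induction on the list; for two of them
`ρ = ρ1 + ρ2`, `ρ1 = n / h ^ 2`: cut `RO (ρ h) ρ` by the line `x + ρ1 y = ρ1 h` through the top
(A5): below it `RO (ρ1 h) ρ1`, above it the rows `(ρ1 (h - y), ρ (h - y))`, `0 < y < h`, of length
`ρ2 (h - y)`, pushed to the left by A1. The empty list: `SurM 0 S` always holds (`cond = 0`, `T = ∅`,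
`Emp_empty`). -/
def S_ApexS : Prop := S_RowS → S_CutS → ∀ {h u ρ : ℝ}, 0 < h →
  GoodS h u (RO (ρ * h) ρ) (ρ * h ^ 2)

/-- E1E. The same for emptiness, `0 < ρ`. If the total need is at least `ρ h ^ 2`: induction with the
statement for all `ρ > 0`: for the first unit `(M, n)` put `ρ1 = n / h ^ 2`; if `ρ1 ≥ ρ` the first unit
alone is empty (`UnitE` and monotonicity `EmpM.mono` in the multiset); if `n = 0` drop it; otherwise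
cut by the line through the top and use the induction hypothesis for `ρ - ρ1`. -/
def S_ApexE : Prop := S_RowE → S_CutE → ∀ {h u ρ : ℝ}, 0 < h → 0 < ρ →
  GoodE h u (RC (ρ * h) ρ) (ρ * h ^ 2)

/-- E2. Dividing a set by a family of cuts, independence. Proof. Let `L` be a list of units of total
need at most `α`. Let `L1` be the longest initial part of `L` with total need at most `α1 t1`
(`0 ≤ α1 t0` ≤ `α1 t1`, so the empty part is allowed). If `L1 = L` take `t = t1`: `L` on `S1 t1`, the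
empty list on `S2 t1` (`SurM 0` always holds), and `hc`. Otherwise the next unit has need at most `u`, so
the need of `L1` is more than `α1 t1 - u ≥ α1 t0`, and by the intermediate value theorem
(`intermediate_value_Icc`) it is `α1 t` for some `t` in `[t0, t1]`; the rest has need at most
`α - α1 t ≤ α2 t`. -/
def S_DivS : Prop := ∀ {h u t0 t1 α : ℝ} {S : Set (ℤ × ℤ)} (S1 S2 : ℝ → Set (ℤ × ℤ))
  (α1 α2 : ℝ → ℝ), t0 ≤ t1 → ContinuousOn α1 (Set.Icc t0 t1) → 0 ≤ α1 t0 → u ≤ α1 t1 - α1 t0 →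
  0 ≤ u → (∀ t ∈ Set.Icc t0 t1, α ≤ α1 t + α2 t) →
  (∀ t ∈ Set.Icc t0 t1, GoodS h u (S1 t) (α1 t)) → (∀ t ∈ Set.Icc t0 t1, GoodS h u (S2 t) (α2 t)) →
  (∀ t ∈ Set.Icc t0 t1, ∀ M1 M2 : Multiset ℕ, SurM M1 (S1 t) → SurM M2 (S2 t) →
    SurM (M1 + M2) S) → GoodS h u S α

/-- E2E. The same for emptiness. `L` has total need at least `α`; let `L1` be the shortest initial
part with total need at least `α1 t0` (it exists: `α ≥ α1 t0 + α2 t0 ≥ α1 t0`); its need is less than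
`α1 t0 + u ≤ α1 t1` (or `L1 = []` and `α1 t0 = 0`), so it is `α1 t` for some `t`; the rest has need at
least `α - α1 t ≥ α2 t`. -/
def S_DivE : Prop := ∀ {h u t0 t1 α : ℝ} {S : Set (ℤ × ℤ)} (S1 S2 : ℝ → Set (ℤ × ℤ))
  (α1 α2 : ℝ → ℝ), t0 ≤ t1 → ContinuousOn α1 (Set.Icc t0 t1) → 0 ≤ α1 t0 → u ≤ α1 t1 - α1 t0 →
  0 ≤ u → (∀ t ∈ Set.Icc t0 t1, α1 t + α2 t ≤ α) → (∀ t ∈ Set.Icc t0 t1, 0 ≤ α2 t) →
  (∀ t ∈ Set.Icc t0 t1, GoodE h u (S1 t) (α1 t)) → (∀ t ∈ Set.Icc t0 t1, GoodE h u (S2 t) (α2 t)) →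
  (∀ t ∈ Set.Icc t0 t1, ∀ M1 M2 : Multiset ℕ, EmpM M1 (S1 t) → EmpM M2 (S2 t) →
    EmpM (M1 + M2) S) → GoodE h u S α

/-- E3. Right triangles of any size. Proof: `S_SqS` with `η = h` reduces `RO b ρ` to
`RO (ρ' h) ρ'`, `ρ' = (2 b - 1) ^ 2 / (4 ρ h ^ 2)`, and `ρ' h ^ 2 = (2 b - 1) ^ 2 / (4 ρ) ≥ b ^ 2 / ρ - b / ρ`;
E1. -/
def S_RTS : Prop :=
  (∀ {M : Multiset ℕ} {b ρ η : ℝ}, 2 ≤ ρ → 0 < η → 4 * ρ * η < 2 * b - 1 →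
    SurM M (RO ((2 * b - 1) ^ 2 / (4 * ρ * η)) ((2 * b - 1) ^ 2 / (4 * ρ * η ^ 2))) →
    SurM M (RO b ρ)) →
  (∀ {h u ρ : ℝ}, 0 < h → GoodS h u (RO (ρ * h) ρ) (ρ * h ^ 2)) →
  ∀ {h u b ρ : ℝ}, 0 < h → 2 ≤ ρ → 4 * ρ * h < 2 * b - 1 →
  GoodS h u (RO b ρ) (b ^ 2 / ρ - b / ρ)

/-- E3E. -/
def S_RTE : Prop :=
  (∀ {M : Multiset ℕ} {b ρ η : ℝ}, 2 ≤ ρ → 0 < η → 2 * ρ * η < b →
    EmpM M (RC (b ^ 2 / (ρ * η)) (b ^ 2 / (ρ * η ^ 2))) → EmpM M (RC b ρ)) →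
  (∀ {h u ρ : ℝ}, 0 < h → 0 < ρ → GoodE h u (RC (ρ * h) ρ) (ρ * h ^ 2)) →
  ∀ {h u b ρ : ℝ}, 0 < h → 2 ≤ ρ → 2 * ρ * h < b → GoodE h u (RC b ρ) (b ^ 2 / ρ)

/-- E4. Trapezoids with the top at least as long as the height. Proof: B3 (`S_DiagS`) to
`TO (B + H) (s + 2) H`, whose top is `B - s H - H ≥ 1 / 2`; C2 to `RO (σ H / 2) σ`,
`σ = 4 (2 B - s H - 1) / H ≥ 8`; E3 with `b = σ H / 2`: `4 σ h < σ H - 1` as `H ≥ 5 h`, `h ≥ 1`, and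
`b ^ 2 / σ - b / σ = (2 B - s H - 1) H - H / 2`. -/
def S_FatS : Prop := S_DiagS →
  (∀ {M : Multiset ℕ} {B s h : ℝ}, 0 < h → 2 ≤ s → 1 / 2 ≤ B - s * h →
    SurM M (RO (4 * (2 * B - s * h - 1) / h * (h / 2)) (4 * (2 * B - s * h - 1) / h)) →
    SurM M (TO B s h)) →
  (∀ {h u b ρ : ℝ}, 0 < h → 2 ≤ ρ → 4 * ρ * h < 2 * b - 1 →
    GoodS h u (RO b ρ) (b ^ 2 / ρ - b / ρ)) →
  ∀ {h u B s H : ℝ}, 1 ≤ h → 5 * h ≤ H → 0 ≤ s → H + 1 / 2 ≤ B - s * H →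
  GoodS h u (TO B s H) ((2 * B - s * H) * H - 2 * H)

/-- E4E. Here `σ = 4 (2 B - s H) / H ≥ 8`, `b = σ H / 2`, `2 σ h < b` as `4 h < H`,
`b ^ 2 / σ = (2 B - s H) H`. -/
def S_FatE : Prop := S_DiagE →
  (∀ {M : Multiset ℕ} {B s h : ℝ}, 0 < h → 2 ≤ s → 0 ≤ B - s * h →
    EmpM M (RC (4 * (2 * B - s * h) / h * (h / 2)) (4 * (2 * B - s * h) / h)) →
    EmpM M (TC B s h)) →
  (∀ {h u b ρ : ℝ}, 0 < h → 2 ≤ ρ → 2 * ρ * h < b → GoodE h u (RC b ρ) (b ^ 2 / ρ)) →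
  ∀ {h u B s H : ℝ}, 1 ≤ h → 5 * h ≤ H → 0 ≤ s → H ≤ B - s * H →
  GoodE h u (TC B s H) ((2 * B - s * H) * H)

end Pool.Agent.H200W
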