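import Pool.Agent.H200W.Stm2

/-! # Project WR: statements of the lemmas, with their proofs. Part 3: strips and polygons. -/

set_option autoImplicit false

namespace Pool.Agent.H200W

open Finset Pool.Agent.TH176.Nag Pool.Agent.TH603.Sur Pool.Agent.TH2.NU Pool.Agent.TH641.UM
open Pool.Agent.Y205.FW Pool.Agent.Y205.MD

/-! ## F. Strips -/

/-- the conclusion of E4 -/
def FatS : Prop := ∀ {h u B s H : ℝ}, 1 ≤ h → 5 * h ≤ H → 0 ≤ s → H + 1 / 2 ≤ B - s * H →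
  GoodS h u (TO B s H) ((2 * B - s * H) * H - 2 * H)

/-- the conclusion of E4E -/
def FatE : Prop := ∀ {h u B s H : ℝ}, 1 ≤ h → 5 * h ≤ H → 0 ≤ s → H ≤ B - s * H →
  GoodE h u (TC B s H) ((2 * B - s * H) * H)

/-- F1. A strip whose rows have a length linear between `D0` and `D1`. Proof: B1 with `B = max D0 D1`
and `s = |D0 - D1| / H`, then E4 (`B - s H = min D0 D1`). Note that a list of units is treated by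
applying B1 to the multiset of the whole list. -/
def S_LinGoodS : Prop := S_LinS → FatS → ∀ {h u D0 D1 y0 H : ℝ} (l : ℤ → ℝ), 1 ≤ h → 5 * h ≤ H →
  H + 1 / 2 ≤ D0 → H + 1 / 2 ≤ D1 →
  GoodS h u {p : ℤ × ℤ | y0 < (p.2 : ℝ) ∧ (p.2 : ℝ) < y0 + H ∧ l p.2 < (p.1 : ℝ) ∧
    (p.1 : ℝ) < l p.2 + (D0 + (D1 - D0) / H * (p.2 - y0))} ((D0 + D1) * H - 2 * H)

/-- F1E. -/
def S_LinGoodE : Prop := S_LinE → FatE → ∀ {h u D0 D1 y0 H : ℝ} (l : ℤ → ℝ), 1 ≤ h → 5 * h ≤ H →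
  H ≤ D0 → H ≤ D1 →
  GoodE h u {p : ℤ × ℤ | y0 ≤ (p.2 : ℝ) ∧ (p.2 : ℝ) ≤ y0 + H ∧ l p.2 ≤ (p.1 : ℝ) ∧
    (p.1 : ℝ) ≤ l p.2 + (D0 + (D1 - D0) / H * (p.2 - y0))} ((D0 + D1) * H)

/-- F2. A strip with one corner. Proof: B2, then E4 for `TO (e + α β H) (α β) H`:
`B - s H = e`, `2 B - s H = 2 e + α β H`. -/
def S_BumpGoodS : Prop := S_BumpS → FatS → ∀ {h u e α β y0 H : ℝ} (l : ℤ → ℝ), 1 ≤ h →
  5 * h ≤ H → H + 1 / 2 ≤ e → 0 ≤ α → 0 ≤ β → α + β = 1 →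
  GoodS h u {p : ℤ × ℤ | y0 < (p.2 : ℝ) ∧ (p.2 : ℝ) < y0 + H ∧ l p.2 < (p.1 : ℝ) ∧
    (p.1 : ℝ) < l p.2 + (e + min (α * (p.2 - y0)) (β * (y0 + H - p.2)))}
    ((2 * e + α * β * H) * H - 2 * H)

/-- F2E. -/
def S_BumpGoodE : Prop := S_BumpE → FatE → ∀ {h u e α β y0 H : ℝ} (l : ℤ → ℝ), 1 ≤ h →
  5 * h ≤ H → H ≤ e → 0 ≤ α → 0 ≤ β → α + β = 1 →
  GoodE h u {p : ℤ × ℤ | y0 ≤ (p.2 : ℝ) ∧ (p.2 : ℝ) ≤ y0 + H ∧ l p.2 ≤ (p.1 : ℝ) ∧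
    (p.1 : ℝ) ≤ l p.2 + (e + min (α * (p.2 - y0)) (β * (y0 + H - p.2)))}
    ((2 * e + α * β * H) * H)

/-- F3. The area of a strip. Put `a = max 0 (min H (M - y0))` and `b = max 0 (min H (d - q - y0))`
(the heights at which the left and the right boundary of the strip `[y0, y0 + H]` bend). Then twice the
area is the sum of a trapezoid with straight sides and of two corners. Proof: `rl y = R y - L y`,
`L y = max 0 (M - y)`, `R y = min q (d - y)`; check separately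
`(max 0 (M - y0 - H)) ^ 2 - (max 0 (M - y0)) ^ 2 = -(L y0 + L (y0 + H)) H + a (H - a)` and
`2 q H - (max 0 (y0 + H - (d - q))) ^ 2 + (max 0 (y0 - (d - q))) ^ 2 = (R y0 + R (y0 + H)) H + b (H - b)`,
each in three cases. -/
def S_Area : Prop := ∀ {M q d y0 H : ℝ}, 0 < H →
  ga M q d (y0 + H) - ga M q d y0 = (rl M q d y0 + rl M q d (y0 + H)) * H +
    max 0 (min H (M - y0)) * (H - max 0 (min H (M - y0))) +
    max 0 (min H (d - q - y0)) * (H - max 0 (min H (d - q - y0)))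

/-- F4. The shape of the boundary in a strip. With `a = max 0 (min H (M - y0))`, for
`0 ≤ t ≤ H`: the chord of `L` exceeds `L` by `min ((1 - a / H) t) (a / H (H - t))`; with
`b = max 0 (min H (d - q - y0))` the function `R` exceeds its chord by
`min ((1 - b / H) t) (b / H (H - t))`. Proof: three cases each; e.g. for `0 ≤ M - y0 = a ≤ H`:
`L (y0 + t) = max 0 (a - t)`, chord `a (1 - t / H)`. -/
def S_Bend : Prop := ∀ {M q d y0 H t : ℝ}, 0 < H → 0 ≤ t → t ≤ H →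
  (max 0 (M - y0) + (max 0 (M - (y0 + H)) - max 0 (M - y0)) / H * t = max 0 (M - (y0 + t)) +
    min ((1 - max 0 (min H (M - y0)) / H) * t) (max 0 (min H (M - y0)) / H * (H - t))) ∧
  (min q (d - (y0 + t)) = min q (d - y0) + (min q (d - (y0 + H)) - min q (d - y0)) / H * t +
    min ((1 - max 0 (min H (d - q - y0)) / H) * t) (max 0 (min H (d - q - y0)) / H * (H - t)))

/-- F5. A strip of the polygon. Proof. Let `cl`, `cr` be the chords of `L` and `R` over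
`[y0, y0 + H]` (F4) and `a`, `b` as in F3. For `e, e' ∈ [H + 1, (3 / 2) H + 1]` the strip contains the three
disjoint parts `L < x < cl + e`, `cl + e < x < cr - e'`, `cr - e' < x < R`. The first is F2 with `l = L`
and `e + (cl - L)`, `α = 1 - a / H`, `β = a / H`: good with `(2 e + a (H - a) / H) H - 2 H`; the third is F2
with `l = cr - e'`: good with `(2 e' + b (H - b) / H) H - 2 H`; the second is F1 with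
`D0 = rl y0 - e - e'`, `D1 = rl (y0 + H) - e - e'`, at least `2 H - 2 ≥ H + 1 / 2`. Divide (E2) twice: first
with `t = e'` for the part `cl + e < x < R` (`α1 = (2 e' + b (H - b) / H) H - 2 H`, which grows by
`H ^ 2 ≥ u` over the interval; the cut is the line `x = cr (y) - e'`, A5), then with `t = e` for the
whole strip. The sum of the areas is given by F3. -/
def S_Strip : Prop := S_CutS → S_Area → S_Bend → S_DivS →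
  (∀ {h u D0 D1 y0 H : ℝ} (l : ℤ → ℝ), 1 ≤ h → 5 * h ≤ H → H + 1 / 2 ≤ D0 → H + 1 / 2 ≤ D1 →
    GoodS h u {p : ℤ × ℤ | y0 < (p.2 : ℝ) ∧ (p.2 : ℝ) < y0 + H ∧ l p.2 < (p.1 : ℝ) ∧
      (p.1 : ℝ) < l p.2 + (D0 + (D1 - D0) / H * (p.2 - y0))} ((D0 + D1) * H - 2 * H)) →
  (∀ {h u e α β y0 H : ℝ} (l : ℤ → ℝ), 1 ≤ h → 5 * h ≤ H → H + 1 / 2 ≤ e → 0 ≤ α → 0 ≤ β →
    α + β = 1 → GoodS h u {p : ℤ × ℤ | y0 < (p.2 : ℝ) ∧ (p.2 : ℝ) < y0 + H ∧ l p.2 < (p.1 : ℝ) ∧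
      (p.1 : ℝ) < l p.2 + (e + min (α * (p.2 - y0)) (β * (y0 + H - p.2)))}
      ((2 * e + α * β * H) * H - 2 * H)) →
  ∀ {h u M q d y0 H : ℝ}, 1 ≤ h → 5 * h ≤ H → 0 ≤ u → u ≤ H ^ 2 → 5 * H ≤ rl M q d y0 →
  5 * H ≤ rl M q d (y0 + H) →
  GoodS h u (ZO M q d y0 (y0 + H)) (ga M q d (y0 + H) - ga M q d y0 - 6 * H)

/-- F5E. The same for emptiness: `e, e' ∈ [H, (3 / 2) H]`, closed parts (the strip is finite: A6), no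
loss. -/
def S_StripE : Prop := S_CutE → S_Area → S_Bend → S_DivE →
  (∀ {h u D0 D1 y0 H : ℝ} (l : ℤ → ℝ), 1 ≤ h → 5 * h ≤ H → H ≤ D0 → H ≤ D1 →
    GoodE h u {p : ℤ × ℤ | y0 ≤ (p.2 : ℝ) ∧ (p.2 : ℝ) ≤ y0 + H ∧ l p.2 ≤ (p.1 : ℝ) ∧
      (p.1 : ℝ) ≤ l p.2 + (D0 + (D1 - D0) / H * (p.2 - y0))} ((D0 + D1) * H)) →
  (∀ {h u e α β y0 H : ℝ} (l : ℤ → ℝ), 1 ≤ h → 5 * h ≤ H → H ≤ e → 0 ≤ α → 0 ≤ β →
    α + β = 1 → GoodE h u {p : ℤ × ℤ | y0 ≤ (p.2 : ℝ) ∧ (p.2 : ℝ) ≤ y0 + H ∧ l p.2 ≤ (p.1 : ℝ) ∧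
      (p.1 : ℝ) ≤ l p.2 + (e + min (α * (p.2 - y0)) (β * (y0 + H - p.2)))}
      ((2 * e + α * β * H) * H)) →
  ∀ {h u M q d y0 H : ℝ}, 1 ≤ h → 5 * h ≤ H → 0 ≤ u → u ≤ H ^ 2 → 5 * H ≤ rl M q d y0 →
  5 * H ≤ rl M q d (y0 + H) →
  GoodE h u (ZC M q d y0 (y0 + H)) (ga M q d (y0 + H) - ga M q d y0)

/-- the conclusion of F5 -/
def StripS : Prop := ∀ {h u M q d y0 H : ℝ}, 1 ≤ h → 5 * h ≤ H → 0 ≤ u → u ≤ H ^ 2 →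
  5 * H ≤ rl M q d y0 → 5 * H ≤ rl M q d (y0 + H) →
  GoodS h u (ZO M q d y0 (y0 + H)) (ga M q d (y0 + H) - ga M q d y0 - 6 * H)

/-- the conclusion of F5E -/
def StripE : Prop := ∀ {h u M q d y0 H : ℝ}, 1 ≤ h → 5 * h ≤ H → 0 ≤ u → u ≤ H ^ 2 →
  5 * H ≤ rl M q d y0 → 5 * H ≤ rl M q d (y0 + H) →
  GoodE h u (ZC M q d y0 (y0 + H)) (ga M q d (y0 + H) - ga M q d y0)

/-- F6. A stack of strips. Proof by induction on a natural number `n` with `y1 - y0 ≤ n G`. The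
rows between `y0` and `y1` have a length at least `13 G` because `rl` is concave (or: by F3 and
monotonicity; `rl` is a minimum of two affine functions minus a maximum of two). If
`y1 - y0 ≤ (5 / 2) G`: F5. Otherwise divide (E2) with `t ∈ [y0 + G, y0 + (3 / 2) G]`,
`S1 t = ZO y0 t` (F5), `S2 t = ZO t y1` (induction), `α1 t = ga t - ga y0 - 6 (t - y0)`, continuous, which
grows by at least `(G / 2) (26 G - 6) ≥ G ^ 2 ≥ u` (F3: `ga` grows at least with the factor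
`2 * 13 G`), and `α1 (y0 + G) ≥ 0`; the cut is the line `y = t` (A5 with `α = 0`). -/
def S_Stack : Prop := S_CutS → S_Area → S_DivS → StripS →
  ∀ {h u G M q d y0 y1 : ℝ}, 1 ≤ h → 5 * h ≤ G → 0 ≤ u → u ≤ G ^ 2 → y0 + G ≤ y1 →
  13 * G ≤ rl M q d y0 → 13 * G ≤ rl M q d y1 →
  GoodS h u (ZO M q d y0 y1) (ga M q d y1 - ga M q d y0 - 6 * (y1 - y0))

/-- F6E. -/
def S_StackE : Prop := S_CutE → S_Area → S_DivE → StripE →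
  ∀ {h u G M q d y0 y1 : ℝ}, 1 ≤ h → 5 * h ≤ G → 0 ≤ u → u ≤ G ^ 2 → y0 + G ≤ y1 →
  13 * G ≤ rl M q d y0 → 13 * G ≤ rl M q d y1 →
  GoodE h u (ZC M q d y0 y1) (ga M q d y1 - ga M q d y0)

/-- the conclusion of F6 -/
def StackS : Prop := ∀ {h u G M q d y0 y1 : ℝ}, 1 ≤ h → 5 * h ≤ G → 0 ≤ u → u ≤ G ^ 2 →
  y0 + G ≤ y1 → 13 * G ≤ rl M q d y0 → 13 * G ≤ rl M q d y1 →
  GoodS h u (ZO M q d y0 y1) (ga M q d y1 - ga M q d y0 - 6 * (y1 - y0))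

/-- the conclusion of F6E -/
def StackE : Prop := ∀ {h u G M q d y0 y1 : ℝ}, 1 ≤ h → 5 * h ≤ G → 0 ≤ u → u ≤ G ^ 2 →
  y0 + G ≤ y1 → 13 * G ≤ rl M q d y0 → 13 * G ≤ rl M q d y1 →
  GoodE h u (ZC M q d y0 y1) (ga M q d y1 - ga M q d y0)

/-! ## G. Polygons -/

/-- G1. The upper triangle. Proof: `{p | t < p.2, 0 < p.1, p.1 < b - p.2}` is a strip (B1 with
`l = 0`, `B = b - t`, `s = 1`, `h = b - t`) and becomes `TO c 1 c ⊇ RO c 1`, `c = b - t`; B7 gives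
`RO (2 c) 4`, and E3 with `b = 2 c`, `ρ = 4`: `(2 c) ^ 2 / 4 - (2 c) / 4`; `16 h < 4 c - 1`. -/
def S_TopS : Prop := S_LinS → S_TipS →
  (∀ {h u b ρ : ℝ}, 0 < h → 2 ≤ ρ → 4 * ρ * h < 2 * b - 1 →
    GoodS h u (RO b ρ) (b ^ 2 / ρ - b / ρ)) →
  ∀ {h u b t : ℝ}, 1 ≤ h → 5 * h ≤ b - t →
  GoodS h u {p : ℤ × ℤ | t < (p.2 : ℝ) ∧ 0 < p.1 ∧ (p.1 : ℝ) < b - p.2}
    ((b - t) ^ 2 - (b - t))

/-- G1E. -/
def S_TopE : Prop := S_LinE → S_TipE →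
  (∀ {h u b ρ : ℝ}, 0 < h → 2 ≤ ρ → 2 * ρ * h < b → GoodE h u (RC b ρ) (b ^ 2 / ρ)) →
  ∀ {h u b t : ℝ}, 1 ≤ h → 5 * h ≤ b - t →
  GoodE h u {p : ℤ × ℤ | t ≤ (p.2 : ℝ) ∧ 0 ≤ p.1 ∧ (p.1 : ℝ) ≤ b - p.2} ((b - t) ^ 2)

/-- G2. A triangle of side `b` with a corner of side `M` cut off at the origin,
`0 ≤ M ≤ (5 / 8) b`, `52 * 32 h ≤ b`. Proof: divide (E2) with `t ∈ [(13 / 20) b, (3 / 4) b]`,
`S1 t = ZO M b b 0 t` (F6 with `G = b / 52 ≥ 32 h`: `rl 0 = b - M ≥ b / 4`, `rl t = b - t ≥ b / 4 = 13 G`, as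
`t ≥ M`), `S2 t` the set of G1. `u = 1024 h ^ 2 ≤ G ^ 2`.
`ga M b b y = 2 b y - y ^ 2 + (max 0 (M - y)) ^ 2` for `y ≥ 0`; for `y ≥ M`: `2 b y - y ^ 2`; the sum of the areas is
`b ^ 2 - M ^ 2`; losses `6 t + (b - t) ≤ 7 b`. `α1` grows by at least
`(b / 10) (b / 2 - 6) ≥ u`. -/
def S_CornS : Prop := S_CutS → S_DivS → StackS →
  (∀ {h u b t : ℝ}, 1 ≤ h → 5 * h ≤ b - t →
    GoodS h u {p : ℤ × ℤ | t < (p.2 : ℝ) ∧ 0 < p.1 ∧ (p.1 : ℝ) < b - p.2}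
      ((b - t) ^ 2 - (b - t))) →
  ∀ {h M b : ℝ}, 1 ≤ h → 0 ≤ M → M ≤ 5 / 8 * b → 1664 * h ≤ b →
  GoodS h (1024 * h ^ 2) (ZO M b b 0 b) (b ^ 2 - M ^ 2 - 7 * b)

/-- G2E. -/
def S_CornE : Prop := S_CutE → S_DivE → StackE →
  (∀ {h u b t : ℝ}, 1 ≤ h → 5 * h ≤ b - t →
    GoodE h u {p : ℤ × ℤ | t ≤ (p.2 : ℝ) ∧ 0 ≤ p.1 ∧ (p.1 : ℝ) ≤ b - p.2} ((b - t) ^ 2)) →
  ∀ {h M b : ℝ}, 1 ≤ h → 0 ≤ M → M ≤ 5 / 8 * b → 1664 * h ≤ b →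
  GoodE h (1024 * h ^ 2) (ZC M b b 0 b) (b ^ 2 - M ^ 2)

/-- the conclusion of G2 -/
def CornS : Prop := ∀ {h M b : ℝ}, 1 ≤ h → 0 ≤ M → M ≤ 5 / 8 * b → 1664 * h ≤ b →
  GoodS h (1024 * h ^ 2) (ZO M b b 0 b) (b ^ 2 - M ^ 2 - 7 * b)

/-- the conclusion of G2E -/
def CornE : Prop := ∀ {h M b : ℝ}, 1 ≤ h → 0 ≤ M → M ≤ 5 / 8 * b → 1664 * h ≤ b →
  GoodE h (1024 * h ^ 2) (ZC M b b 0 b) (b ^ 2 - M ^ 2)

/-- G3. The hexagon. `D` is a natural number, `H = D - M1 ≥ 4160 h`. Proof. `ga (D - M1) - ga 0 =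
D ^ 2 - M1 ^ 2 - M2 ^ 2 - M3 ^ 2` for `q = D - M2`, `d = D`. The rows: `rl 0 = D - M2 - M3 ≥ M1`,
`rl (D - M1) = M1`.
Case `4 M1 ≥ H`: F6 with `G = H / 52`: `13 G = H / 4 ≤ M1`, `G ≥ 32 h`.
Case `4 M1 < H`: divide (E2) with `t ∈ [H / 2, (3 / 5) H]`, `S1 t = ZO M3 (D - M2) D 0 t` (F6 with
`G = H / 52`: `rl 0 ≥ D - 2 M1 ≥ H / 4`, `rl t = D - t ≥ H / 4` as `t ≥ H / 2 ≥ M2, M3`), and
`S2 t = {p | t < p.2 < D - M1, 0 < p.1 < D - p.2}`, which the map `(x, y) ↦ (D - x - y, x)` (`Sur.comap`)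
carries onto a set containing `ZO M1 b b 0 b`, `b = D - t ≥ (2 / 5) H + M1` (the conditions become
`x > 0`, `z > 0`, `z > M1 - x`, `z < b - x` for `z = D - x - y`): G2 with `M1 ≤ (5 / 8) b`,
`b ≥ (2 / 5) H ≥ 1664 h`. `ga t - ga 0 = 2 D t - t ^ 2 - M2 ^ 2 - M3 ^ 2`,
`b ^ 2 - M1 ^ 2 = (D - t) ^ 2 - M1 ^ 2`. Losses: `6 t + 7 b ≤ 14 H` (`b ≤ H / 2 + M1 ≤ (3 / 4) H`). -/
def S_HexS : Prop := S_CutS → S_DivS → StackS → CornS →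
  ∀ {h : ℝ} {D M1 M2 M3 : ℕ}, 1 ≤ h → M3 ≤ M2 → M2 ≤ M1 → M1 + M2 + M3 ≤ D →
  4160 * h ≤ (D : ℝ) - M1 →
  GoodS h (1024 * h ^ 2) (ZO M3 (D - M2) D 0 (D - M1))
    ((D : ℝ) ^ 2 - (M1 : ℝ) ^ 2 - (M2 : ℝ) ^ 2 - (M3 : ℝ) ^ 2 - 14 * (D - M1))

/-- G3E. -/
def S_HexE : Prop := S_CutE → S_DivE → StackE → CornE →
  ∀ {h : ℝ} {D M1 M2 M3 : ℕ}, 1 ≤ h → M3 ≤ M2 → M2 ≤ M1 → M1 + M2 + M3 ≤ D →
  4160 * h ≤ (D : ℝ) - M1 →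
  GoodE h (1024 * h ^ 2) (ZC M3 (D - M2) D 0 (D - M1))
    ((D : ℝ) ^ 2 - (M1 : ℝ) ^ 2 - (M2 : ℝ) ^ 2 - (M3 : ℝ) ^ 2)

/-- the conclusion of G3 -/
def HexS : Prop := ∀ {h : ℝ} {D M1 M2 M3 : ℕ}, 1 ≤ h → M3 ≤ M2 → M2 ≤ M1 → M1 + M2 + M3 ≤ D →
  4160 * h ≤ (D : ℝ) - M1 →
  GoodS h (1024 * h ^ 2) (ZO M3 (D - M2) D 0 (D - M1))
    ((D : ℝ) ^ 2 - (M1 : ℝ) ^ 2 - (M2 : ℝ) ^ 2 - (M3 : ℝ) ^ 2 - 14 * (D - M1))

/-- the conclusion of G3E -/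
def HexE : Prop := ∀ {h : ℝ} {D M1 M2 M3 : ℕ}, 1 ≤ h → M3 ≤ M2 → M2 ≤ M1 → M1 + M2 + M3 ≤ D →
  4160 * h ≤ (D : ℝ) - M1 →
  GoodE h (1024 * h ^ 2) (ZC M3 (D - M2) D 0 (D - M1))
    ((D : ℝ) ^ 2 - (M1 : ℝ) ^ 2 - (M2 : ℝ) ^ 2 - (M3 : ℝ) ^ 2)

/-- G4. The number of monomials. Proof: `Pool.Agent.W609.T.card_hex` (W609/T/Cards.lean; there the
finset is `Rg 1 0 (d + 1) (d - M1) M2 M3` of pairs of natural numbers, in which the first coordinate is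
our second one), and `card_Tfin`; a bijection with `HX`. -/
def S_CardHX : Prop := ∀ {M1 M2 M3 d : ℕ}, M3 ≤ M2 → M2 ≤ M1 → M1 + M2 + M3 ≤ d →
  2 * (HX M1 M2 M3 d).card + (M1 * (M1 + 1) + M2 * (M2 + 1) + M3 * (M3 + 1)) = (d + 1) * (d + 2)

/-- G5. The two windows for the monomials of degree `d`. Proof. Emptiness: `HX` is
`ZC M3 (d - M2) d 0 (d - M1)`; G3E and `2 |HX| = d ^ 2 - ∑ M_i ^ 2 + (3 d - ∑ M_i) + 2 ≥` its area.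
Independence: `HX`, shifted by `(1, 1)`, is `ZO (M3 + 1) (D - (M2 + 1)) D 0 (D - (M1 + 1))` with
`D = d + 3` (`Sur.shift`); G3 and
`D ^ 2 - ∑ (M_i + 1) ^ 2 = 2 |HX| + (3 d - ∑ M_i) + 4`, `D - (M1 + 1) = d - M1 + 2`. -/
def S_Win : Prop := HexS → HexE → S_CardHX → ∀ {h : ℝ} {d M1 M2 M3 : ℕ}, 1 ≤ h → M3 ≤ M2 →
  M2 ≤ M1 → M1 + M2 + M3 ≤ d → 4160 * h ≤ (d : ℝ) - M1 →
  GoodS h (1024 * h ^ 2) (↑(HX M1 M2 M3 d) : Set (ℤ × ℤ))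
      (2 * ((HX M1 M2 M3 d).card : ℝ) - 14 * ((d : ℝ) - M1 + 2)) ∧
    GoodE h (1024 * h ^ 2) (↑(HX M1 M2 M3 d) : Set (ℤ × ℤ)) (2 * ((HX M1 M2 M3 d).card : ℝ))

end Pool.Agent.H200W
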