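import Pool.Agent.H200W.Stm3
import Pool.Agent.W609.T.Cards
import Pool.Agent.W609.Fin

/-! # Project WR: statements of the lemmas, with their proofs. Part 4: units, doubling, general points. -/

set_option autoImplicit false

namespace Pool.Agent.H200W

open Finset Pool.Agent.TH176.Nag Pool.Agent.TH603.Sur Pool.Agent.TH2.NU Pool.Agent.TH641.UM
open Pool.Agent.Y205.FW Pool.Agent.Y205.MD

/-! ## H. Units -/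

/-- the conclusion of D2 -/
def BlockS : Prop := ∀ {N a : ℕ} {h : ℝ}, 8 * ((a : ℝ) + 1) ≤ h → 4 * h ≤ N * ((a : ℝ) + 1) →
  UnitS h (Multiset.replicate N a) (N * ((a : ℝ) + 1) ^ 2 + 2 * h)

/-- the conclusion of D2E -/
def BlockE : Prop := ∀ {N a : ℕ} {h : ℝ}, 1 ≤ a → 8 * (a : ℝ) ≤ h → 4 * h ≤ N * (a : ℝ) →
  UnitE h (Multiset.replicate N a) (N * (a : ℝ) ^ 2 - 1)

/-- the conclusion of D3 -/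
def RareS : Prop := ∀ {N u k l : ℕ} {h : ℝ}, 1 ≤ k → 16 * ((u : ℝ) + 1) ≤ h →
  16 * ((l : ℝ) + 1) ≤ h → 2 * h ^ 2 ≤ N * ((u : ℝ) + 1) ^ 2 →
  k * ((l : ℝ) + 1) * h ≤ N * ((u : ℝ) + 1) ^ 2 →
  UnitS h (Multiset.replicate N u + Multiset.replicate k l)
    (N * ((u : ℝ) + 1) ^ 2 + k * ((l : ℝ) + 1) ^ 2 + 4 * h)

/-- the conclusion of D3E -/
def RareE : Prop := ∀ {N u k l : ℕ} {h : ℝ}, 1 ≤ k → 1 ≤ u → 1 ≤ l →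
  16 * ((u : ℝ) + 1) ≤ h → 16 * ((l : ℝ) + 1) ≤ h → 3 * h ^ 2 ≤ N * (u : ℝ) ^ 2 →
  k * (l : ℝ) * h ≤ N * (u : ℝ) ^ 2 →
  UnitE h (Multiset.replicate N u + Multiset.replicate k l)
    (N * (u : ℝ) ^ 2 + k * (l : ℝ) ^ 2 - 1)

/-- H1. Splitting a class of `N` points of multiplicity `a ≥ 16` into blocks. Proof. Let
`q = ⌈256 h ^ 2 / a ^ 2⌉`, so `256 h ^ 2 ≤ q a ^ 2 ≤ 257 h ^ 2`. If `N < q` take the list `[N]`. Otherwise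
`N / q - 1` times `q` and once `q + N % q < 2 q`. `(a + 1) ^ 2 ≤ (9 / 8) ^ 2 * ... ≤ 1.13 a ^ 2` as `a ≥ 16`,
so `n (a + 1) ^ 2 ≤ 1.13 * 514 h ^ 2 ≤ 600 h ^ 2`; `q a ≥ 256 h ^ 2 / a ≥ 4 h`. In the second case all
`m = N / q` entries satisfy `256 h ^ 2 ≤ n a ^ 2` and `N < q (m + 1)`. -/
def S_Split : Prop := ∀ {N a : ℕ} {h : ℝ}, 1 ≤ N → 16 ≤ a → 16 * ((a : ℝ) + 1) ≤ h →
  4 * h ≤ N * (a : ℝ) → ∃ (m : ℕ) (l : List ℕ), l.sum = N ∧ (∀ n ∈ l, 4 * h ≤ n * (a : ℝ) ∧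
    (n : ℝ) * ((a : ℝ) + 1) ^ 2 ≤ 600 * h ^ 2) ∧
    (m = 0 ∨ (m = l.length ∧ ∀ n ∈ l, 256 * h ^ 2 ≤ n * (a : ℝ) ^ 2)) ∧
    (N : ℝ) * (a : ℝ) ^ 2 ≤ 257 * h ^ 2 * (m + 1)

/-- H2. Attaching the rare groups `(k, l)` of the list `R` to large blocks. `B` is the list of large
blocks `(n, a)`, `C` the list of the other blocks. The units are the pairs of a rare group and a large
block, and the remaining blocks alone. Proof: induction on `R` (generalising `B`), then on `B`, `C`. The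
overhead per unit is at most `4 h` (`2 h` for a block alone); `4 h ≤ n (a + 1) / 2` for large
blocks (`n a ≥ 256 h ^ 2 / a ≥ 4096 h`), `2 h ≤ n (a + 1) / 2` for the others; `1 ≤ n a / 2`. The need of a
unit is at most `600 h ^ 2 + 256 h (l + 1) + 4 h ≤ 1024 h ^ 2`. -/
def S_Attach : Prop := BlockS → BlockE → RareS → RareE →
  ∀ {h : ℝ} (B C R : List (ℕ × ℕ)), 16 ≤ h →
  (∀ x ∈ B ++ C, 16 ≤ x.2 ∧ 16 * ((x.2 : ℝ) + 1) ≤ h ∧ 4 * h ≤ x.1 * (x.2 : ℝ) ∧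
    (x.1 : ℝ) * ((x.2 : ℝ) + 1) ^ 2 ≤ 600 * h ^ 2) →
  (∀ x ∈ B, 256 * h ^ 2 ≤ x.1 * (x.2 : ℝ) ^ 2) →
  (∀ x ∈ R, 1 ≤ x.1 ∧ 1 ≤ x.2 ∧ 16 * ((x.2 : ℝ) + 1) ≤ h ∧ x.1 * ((x.2 : ℝ) + 1) ≤ 256 * h) →
  R.length ≤ B.length →
  ∃ L : List (Multiset ℕ × ℝ × ℝ),
    (∀ x ∈ L, UnitS h x.1 x.2.1 ∧ UnitE h x.1 x.2.2 ∧ 0 ≤ x.2.1 ∧ x.2.1 ≤ 1024 * h ^ 2 ∧
      0 ≤ x.2.2 ∧ x.2.2 ≤ 1024 * h ^ 2) ∧
    (L.map fun x => x.1).sum = ((B ++ C ++ R).map fun x => Multiset.replicate x.1 x.2).sum ∧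
    (L.map fun x => x.2.1).sum ≤
      ((B ++ C ++ R).map fun x => (x.1 : ℝ) * ((x.2 : ℝ) + 1) ^ 2).sum +
        ((B ++ C).map fun x => (x.1 : ℝ) * ((x.2 : ℝ) + 1) / 2).sum ∧
    ((B ++ C ++ R).map fun x => (x.1 : ℝ) * (x.2 : ℝ) ^ 2).sum ≤
      (L.map fun x => x.2.2).sum + ((B ++ C).map fun x => (x.1 : ℝ) * ((x.2 : ℝ) + 1) / 2).sum

/-- H3. The decomposition of a leaf into units: classes `(N v, a v)`, `v ∈ V`, and a list `R` of rare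
groups. Proof: H1 for every `v ∈ V`; `B` the concatenation of the lists of the `v` with
`m v = length` (`m v ≠ 0`), `C` that of the others; `B.length = ∑ m v ≥ ∑ N a ^ 2 / (257 h ^ 2) - |V| ≥ R.length`;
H2. -/
def S_Units : Prop := S_Split →
  (∀ {h : ℝ} (B C R : List (ℕ × ℕ)), 16 ≤ h →
  (∀ x ∈ B ++ C, 16 ≤ x.2 ∧ 16 * ((x.2 : ℝ) + 1) ≤ h ∧ 4 * h ≤ x.1 * (x.2 : ℝ) ∧
    (x.1 : ℝ) * ((x.2 : ℝ) + 1) ^ 2 ≤ 600 * h ^ 2) →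
  (∀ x ∈ B, 256 * h ^ 2 ≤ x.1 * (x.2 : ℝ) ^ 2) →
  (∀ x ∈ R, 1 ≤ x.1 ∧ 1 ≤ x.2 ∧ 16 * ((x.2 : ℝ) + 1) ≤ h ∧ x.1 * ((x.2 : ℝ) + 1) ≤ 256 * h) →
  R.length ≤ B.length →
  ∃ L : List (Multiset ℕ × ℝ × ℝ),
    (∀ x ∈ L, UnitS h x.1 x.2.1 ∧ UnitE h x.1 x.2.2 ∧ 0 ≤ x.2.1 ∧ x.2.1 ≤ 1024 * h ^ 2 ∧
      0 ≤ x.2.2 ∧ x.2.2 ≤ 1024 * h ^ 2) ∧
    (L.map fun x => x.1).sum = ((B ++ C ++ R).map fun x => Multiset.replicate x.1 x.2).sum ∧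
    (L.map fun x => x.2.1).sum ≤
      ((B ++ C ++ R).map fun x => (x.1 : ℝ) * ((x.2 : ℝ) + 1) ^ 2).sum +
        ((B ++ C).map fun x => (x.1 : ℝ) * ((x.2 : ℝ) + 1) / 2).sum ∧
    ((B ++ C ++ R).map fun x => (x.1 : ℝ) * (x.2 : ℝ) ^ 2).sum ≤
      (L.map fun x => x.2.2).sum + ((B ++ C).map fun x => (x.1 : ℝ) * ((x.2 : ℝ) + 1) / 2).sum) →
  ∀ {h : ℝ} (V : Finset ℕ) (N a : ℕ → ℕ) (R : List (ℕ × ℕ)), 16 ≤ h →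
  (∀ v ∈ V, 1 ≤ N v ∧ 16 ≤ a v ∧ 16 * ((a v : ℝ) + 1) ≤ h ∧ 4 * h ≤ N v * (a v : ℝ)) →
  (∀ x ∈ R, 1 ≤ x.1 ∧ 1 ≤ x.2 ∧ 16 * ((x.2 : ℝ) + 1) ≤ h ∧ x.1 * ((x.2 : ℝ) + 1) ≤ 256 * h) →
  257 * h ^ 2 * ((R.length : ℝ) + V.card) ≤ ∑ v ∈ V, (N v : ℝ) * (a v : ℝ) ^ 2 →
  ∃ L : List (Multiset ℕ × ℝ × ℝ),
    (∀ x ∈ L, UnitS h x.1 x.2.1 ∧ UnitE h x.1 x.2.2 ∧ 0 ≤ x.2.1 ∧ x.2.1 ≤ 1024 * h ^ 2 ∧
      0 ≤ x.2.2 ∧ x.2.2 ≤ 1024 * h ^ 2) ∧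
    (L.map fun x => x.1).sum = ∑ v ∈ V, Multiset.replicate (N v) (a v) +
      (R.map fun x => Multiset.replicate x.1 x.2).sum ∧
    (L.map fun x => x.2.1).sum ≤ ∑ v ∈ V, ((N v : ℝ) * ((a v : ℝ) + 1) ^ 2 +
        (N v : ℝ) * ((a v : ℝ) + 1) / 2) +
      (R.map fun x => (x.1 : ℝ) * ((x.2 : ℝ) + 1) ^ 2).sum ∧
    ∑ v ∈ V, ((N v : ℝ) * (a v : ℝ) ^ 2 - (N v : ℝ) * ((a v : ℝ) + 1) / 2) +
      (R.map fun x => (x.1 : ℝ) * (x.2 : ℝ) ^ 2).sum ≤ (L.map fun x => x.2.2).sum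

/-- the conclusion of H3 -/
def Units : Prop := ∀ {h : ℝ} (V : Finset ℕ) (N a : ℕ → ℕ) (R : List (ℕ × ℕ)), 16 ≤ h →
  (∀ v ∈ V, 1 ≤ N v ∧ 16 ≤ a v ∧ 16 * ((a v : ℝ) + 1) ≤ h ∧ 4 * h ≤ N v * (a v : ℝ)) →
  (∀ x ∈ R, 1 ≤ x.1 ∧ 1 ≤ x.2 ∧ 16 * ((x.2 : ℝ) + 1) ≤ h ∧ x.1 * ((x.2 : ℝ) + 1) ≤ 256 * h) →
  257 * h ^ 2 * ((R.length : ℝ) + V.card) ≤ ∑ v ∈ V, (N v : ℝ) * (a v : ℝ) ^ 2 →
  ∃ L : List (Multiset ℕ × ℝ × ℝ),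
    (∀ x ∈ L, UnitS h x.1 x.2.1 ∧ UnitE h x.1 x.2.2 ∧ 0 ≤ x.2.1 ∧ x.2.1 ≤ 1024 * h ^ 2 ∧
      0 ≤ x.2.2 ∧ x.2.2 ≤ 1024 * h ^ 2) ∧
    (L.map fun x => x.1).sum = ∑ v ∈ V, Multiset.replicate (N v) (a v) +
      (R.map fun x => Multiset.replicate x.1 x.2).sum ∧
    (L.map fun x => x.2.1).sum ≤ ∑ v ∈ V, ((N v : ℝ) * ((a v : ℝ) + 1) ^ 2 +
        (N v : ℝ) * ((a v : ℝ) + 1) / 2) +
      (R.map fun x => (x.1 : ℝ) * ((x.2 : ℝ) + 1) ^ 2).sum ∧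
    ∑ v ∈ V, ((N v : ℝ) * (a v : ℝ) ^ 2 - (N v : ℝ) * ((a v : ℝ) + 1) / 2) +
      (R.map fun x => (x.1 : ℝ) * (x.2 : ℝ) ^ 2).sum ≤ (L.map fun x => x.2.2).sum

/-! ## I. Coranks -/

/-- the conclusion of G5 -/
def Win : Prop := ∀ {h : ℝ} {d M1 M2 M3 : ℕ}, 1 ≤ h → M3 ≤ M2 →
  M2 ≤ M1 → M1 + M2 + M3 ≤ d → 4160 * h ≤ (d : ℝ) - M1 →
  GoodS h (1024 * h ^ 2) (↑(HX M1 M2 M3 d) : Set (ℤ × ℤ))
      (2 * ((HX M1 M2 M3 d).card : ℝ) - 14 * ((d : ℝ) - M1 + 2)) ∧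
    GoodE h (1024 * h ^ 2) (↑(HX M1 M2 M3 d) : Set (ℤ × ℤ)) (2 * ((HX M1 M2 M3 d).card : ℝ))

/-- the number `(3 / 2) ∑ N (a + 1) + ∑ k (l + 1)` of a leaf -/
noncomputable def E0 (V : Finset ℕ) (N a : ℕ → ℕ) (R : List (ℕ × ℕ)) : ℝ :=
  3 / 2 * ∑ v ∈ V, (N v : ℝ) * ((a v : ℝ) + 1) + (R.map fun x => (x.1 : ℝ) * ((x.2 : ℝ) + 1)).sum

/-- the multiset of a leaf -/
def lf (V : Finset ℕ) (N a : ℕ → ℕ) (R : List (ℕ × ℕ)) : Multiset ℕ :=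
  ∑ v ∈ V, Multiset.replicate (N v) (a v) + (R.map fun x => Multiset.replicate x.1 x.2).sum

/-- I1. The corank of a leaf. Proof. Let `A = 2 condM (lf V N a R) = ∑ N a (a + 1) + ∑ k l (l + 1)` and
`X = 2 |HX d|`. H3 gives a list of units with total need at most `A + E0` for independence
(`N (a + 1) ^ 2 = N a (a + 1) + N (a + 1)`) and at least `A - E0` for emptiness
(`N a ^ 2 = N a (a + 1) - N a`). If `X ≤ A - E0`: G5 gives `EmpM` on `HX d`, corank `0`. If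
`A + E0 + 14 (d - M1 + 2) ≤ X`: `SurM` on `HX d`, corank `|HX d| - condM`
(`Pool.Agent.Y205.MD.crk_of_Sur`). Otherwise let `e + 1` be the least number `> d` with
`A + E0 + 14 (e + 1 - M1 + 2) ≤ 2 |HX (e + 1)|` (it exists, `S_CardHX`); `SurM` on `HX (e + 1) ⊇ HX d`, so
`2 crkM (HX d) ≤ 2 |HX (e + 1)| - A = 2 |HX e| + 2 (e + 2) - A < E0 + 14 (e - M1 + 2) + 2 (e + 2)`
(the corank is monotone in the set: `Pool.Agent.Y205.MD.crk_spec`, `crk_le`, `Emp.mono`: intersect the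
set `T` for `HX (e + 1)` with `HX d`). Finally `e` is small: with `H = e - M1 ≥ 4160 h`,
`2 |HX e| ≥ e ^ 2 - M1 ^ 2 - M2 ^ 2 - M3 ^ 2 ≥ e H`, because `M2 ^ 2 + M3 ^ 2 ≤ M1 (M2 + M3) ≤ M1 H` and
`e ^ 2 - M1 ^ 2 = H (e + M1)`; so `e H < A + E0 + 14 (e + 2)`, `e (4160 h - 14) < A + E0 + 28` and
`14 (e - M1 + 2) + 2 (e + 2) ≤ 16 (e + 2) ≤ (A + E0) / (128 h) + 33`. -/
def S_Leaf : Prop := Units → Win → S_CardHX →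
  ∀ {h : ℝ} {d M1 M2 M3 : ℕ} (V : Finset ℕ) (N a : ℕ → ℕ) (R : List (ℕ × ℕ)), 256 ≤ h →
  M3 ≤ M2 → M2 ≤ M1 → M1 + M2 + M3 ≤ d → 4160 * h ≤ (d : ℝ) - M1 →
  (∀ v ∈ V, 1 ≤ N v ∧ 16 ≤ a v ∧ 16 * ((a v : ℝ) + 1) ≤ h ∧ 4 * h ≤ N v * (a v : ℝ)) →
  (∀ x ∈ R, 1 ≤ x.1 ∧ 1 ≤ x.2 ∧ 16 * ((x.2 : ℝ) + 1) ≤ h ∧ x.1 * ((x.2 : ℝ) + 1) ≤ 256 * h) →
  257 * h ^ 2 * ((R.length : ℝ) + V.card) ≤ ∑ v ∈ V, (N v : ℝ) * (a v : ℝ) ^ 2 →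
  crkM (HX M1 M2 M3 d) (lf V N a R) = 0 ∨
    crkM (HX M1 M2 M3 d) (lf V N a R) + TH2.NU.condM (lf V N a R) ≤ (HX M1 M2 M3 d).card ∨
    (2 * (TH2.NU.condM (lf V N a R) : ℝ) - E0 V N a R < 2 * (HX M1 M2 M3 d).card ∧
      2 * (crkM (HX M1 M2 M3 d) (lf V N a R) : ℝ) ≤
        E0 V N a R + (2 * TH2.NU.condM (lf V N a R) + E0 V N a R) / (128 * h) + 33)

/-- the conclusion of I1 -/
def LeafC : Prop :=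
  ∀ {h : ℝ} {d M1 M2 M3 : ℕ} (V : Finset ℕ) (N a : ℕ → ℕ) (R : List (ℕ × ℕ)), 256 ≤ h →
  M3 ≤ M2 → M2 ≤ M1 → M1 + M2 + M3 ≤ d → 4160 * h ≤ (d : ℝ) - M1 →
  (∀ v ∈ V, 1 ≤ N v ∧ 16 ≤ a v ∧ 16 * ((a v : ℝ) + 1) ≤ h ∧ 4 * h ≤ N v * (a v : ℝ)) →
  (∀ x ∈ R, 1 ≤ x.1 ∧ 1 ≤ x.2 ∧ 16 * ((x.2 : ℝ) + 1) ≤ h ∧ x.1 * ((x.2 : ℝ) + 1) ≤ 256 * h) →
  257 * h ^ 2 * ((R.length : ℝ) + V.card) ≤ ∑ v ∈ V, (N v : ℝ) * (a v : ℝ) ^ 2 →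
  crkM (HX M1 M2 M3 d) (lf V N a R) = 0 ∨
    crkM (HX M1 M2 M3 d) (lf V N a R) + TH2.NU.condM (lf V N a R) ≤ (HX M1 M2 M3 d).card ∨
    (2 * (TH2.NU.condM (lf V N a R) : ℝ) - E0 V N a R < 2 * (HX M1 M2 M3 d).card ∧
      2 * (crkM (HX M1 M2 M3 d) (lf V N a R) : ℝ) ≤
        E0 V N a R + (2 * TH2.NU.condM (lf V N a R) + E0 V N a R) / (128 * h) + 33)

/-- I2. The numbers. `V`: the classes `1 ≤ v ≤ μ`, which are doubled four times, with the result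
`Leaf 4`. If `V = ∅` then `R = []` by the last hypothesis, and the conclusion is `crk ≤ |HX|`. Otherwise let
`W = ∑ 256 N v`, `P = ∑ N (a + 1)`, `Q = ∑ k (l + 1)`, `G0 = ∑ g0`, `G1 = ∑ g1`. `16 v ≤ a`, `a + 1 ≤ 16 (v + 1)`
(`Leaf.lo`, `Leaf.hi`), so the hypotheses of I1 hold, and `P ≤ ∑ 16 N (v + 1) ≤ W / 8`;
`15 W ≤ 32 (G0 + G1)` (`Leaf.gain`); `W ≥ (1 / μ) ∑ 256 N v ^ 2 ≥ 257 h (h / μ) (|R| + |V|) ≥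
257 * 256 h (|R| + |V|)`, so `Q ≤ 256 h |R| ≤ W / 257` and `33 ≤ W / 1000`; `2 condM (leaf) ≤ (h / 16) (P + Q)`.
`2 condM (leaf) + 2 G0 = 2 condM (w) + 2 G1` for `w = lf V (256 N) id R` (`Leaf.cd`). I1, first case: `crk = 0`.
Second case: `crk ≤ |HX| - condM (leaf)` and `condM (w) ≤ condM (leaf) + G0`. Third case:
`2 crk ≤ E' := E0 + (2 condM + E0) / (128 h) + 33 ≤ (3 / 2) P + Q + (P + Q) / 1000 + 33 ≤ W / 5`, `E0 ≤ W / 5`. If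
`2 G0 ≥ E'` done. Otherwise `2 G1 ≥ (15 / 16) W - E'`, and
`2 |HX| - 2 condM w + 2 G0 = (2 |HX| - 2 condM leaf) + 2 G1 > -E0 + (15 / 16) W - E' ≥ E'`. -/
def S_Num : Prop := LeafC →
  ∀ {h : ℝ} {d M1 M2 M3 μ : ℕ} (V : Finset ℕ) (N : ℕ → ℕ) (R : List (ℕ × ℕ)), 1 ≤ μ →
  h = 256 * ((μ : ℝ) + 1) →
  M3 ≤ M2 → M2 ≤ M1 → M1 + M2 + M3 ≤ d → 4160 * h ≤ (d : ℝ) - M1 →
  (∀ v ∈ V, 1 ≤ v ∧ v ≤ μ ∧ 1 ≤ N v ∧ 4 * h ≤ N v * (16 * (v : ℝ))) →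
  (∀ x ∈ R, 1 ≤ x.1 ∧ 1 ≤ x.2 ∧ x.2 ≤ μ ∧ x.1 * ((x.2 : ℝ) + 1) ≤ 256 * h) →
  257 * h ^ 2 * ((R.length : ℝ) + V.card) ≤ ∑ v ∈ V, (256 * N v : ℝ) * (v : ℝ) ^ 2 →
  ∀ a g0 g1 : ℕ → ℕ, (∀ v ∈ V, Leaf 4 (N v) v (a v) (g0 v) (g1 v)) →
  crkM (HX M1 M2 M3 d) (lf V N a R) ≤
    ((HX M1 M2 M3 d).card - TH2.NU.condM (lf V (fun v => 256 * N v) (fun v => v) R)) + ∑ v ∈ V, g0 v

/-- I3. The corank is as expected. Proof. For `v ∈ w.toFinset` let `n v = w.count v`,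
`V = {v | 256 h ≤ n v (v + 1)}` with `h = 256 (μ + 1)`, `N v = n v / 256`, and let `R` be the list of the
`(n v % 256, v)`, `v ∈ V`, and the `(n v, v)`, `v ∉ V`, without those with first entry `0`; its length is at
most `r = w.toFinset.card`, `V.card ≤ r`, and `w = lf V (256 N) id R`. For `v ∈ V`: `n v v ≥ 128 h`,
`255 v ≤ h`, so `16 N v v ≥ (n v - 255) v / 16 ≥ 127 h / 16 ≥ 4 h`. The groups: `255 (v + 1) ≤ h`, resp.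
`n v (v + 1) < 256 h`. `∑ 256 N v ^ 2 ≥ ∑ (n v - 255) v ^ 2 ≥ ∑ w ^ 2 - 256 h μ r - 255 μ ^ 2 r ≥
2 ^ 28 r μ ^ 2 - 2 ^ 17 r μ ^ 2 - 2 ^ 8 r μ ^ 2 ≥ 257 h ^ 2 * 2 r` (`h ≤ 512 μ`). Now
`Pool.Agent.Y205.FW.classes_acc` with `k = 4` and I2. -/
def S_Corank : Prop :=
  (∀ {h : ℝ} {d M1 M2 M3 μ : ℕ} (V : Finset ℕ) (N : ℕ → ℕ) (R : List (ℕ × ℕ)), 1 ≤ μ →
  h = 256 * ((μ : ℝ) + 1) →
  M3 ≤ M2 → M2 ≤ M1 → M1 + M2 + M3 ≤ d → 4160 * h ≤ (d : ℝ) - M1 →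
  (∀ v ∈ V, 1 ≤ v ∧ v ≤ μ ∧ 1 ≤ N v ∧ 4 * h ≤ N v * (16 * (v : ℝ))) →
  (∀ x ∈ R, 1 ≤ x.1 ∧ 1 ≤ x.2 ∧ x.2 ≤ μ ∧ x.1 * ((x.2 : ℝ) + 1) ≤ 256 * h) →
  257 * h ^ 2 * ((R.length : ℝ) + V.card) ≤ ∑ v ∈ V, (256 * N v : ℝ) * (v : ℝ) ^ 2 →
  ∀ a g0 g1 : ℕ → ℕ, (∀ v ∈ V, Leaf 4 (N v) v (a v) (g0 v) (g1 v)) →
  crkM (HX M1 M2 M3 d) (lf V N a R) ≤
    ((HX M1 M2 M3 d).card - TH2.NU.condM (lf V (fun v => 256 * N v) (fun v => v) R)) + ∑ v ∈ V, g0 v) →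
  ∀ {d M1 M2 M3 μ : ℕ} (w : Multiset ℕ), M3 ≤ M2 → M2 ≤ M1 → M1 + M2 + M3 ≤ d →
  M1 + 1064960 * (μ + 1) ≤ d → 1 ≤ μ → (∀ v ∈ w, 1 ≤ v ∧ v ≤ μ) →
  2 ^ 28 * w.toFinset.card * μ ^ 2 ≤ (w.map fun v => v ^ 2).sum →
  crkM (HX M1 M2 M3 d) w ≤ (HX M1 M2 M3 d).card - TH2.NU.condM w

/-- the conclusion of I3 -/
def Corank : Prop := ∀ {d M1 M2 M3 μ : ℕ} (w : Multiset ℕ), M3 ≤ M2 → M2 ≤ M1 →
  M1 + M2 + M3 ≤ d → M1 + 1064960 * (μ + 1) ≤ d → 1 ≤ μ → (∀ v ∈ w, 1 ≤ v ∧ v ≤ μ) →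
  2 ^ 28 * w.toFinset.card * μ ^ 2 ≤ (w.map fun v => v ^ 2).sum →
  crkM (HX M1 M2 M3 d) w ≤ (HX M1 M2 M3 d).card - TH2.NU.condM w

/-- I4. The same if the number of monomials is large. `μ ∈ w`. Proof: if
`2 ^ 28 r μ ^ 2 ≤ ∑ w ^ 2` this is I3. Otherwise add the least number of points of multiplicity `μ` for
which this holds; the new `w'` has the same `r`, `∑ w' ^ 2 ≤ 2 ^ 28 r μ ^ 2 + μ ^ 2`, so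
`condM w' ≤ ∑ w' ^ 2 ≤ |HX|`; by I3 the corank of `w'` is at most `|HX| - condM w'`. Adding points
one by one: `crkM S (w + {μ}) + (μ + 1).choose 2 ≥ crkM S w`; or: from the corank get a `T ⊆ HX`,
`T.card = condM w'`, `EmpM w' T` (`crk_spec` and removing further exponents), i.e. `SurM w'`, then
`SurM w` for `w ≤ w'` and `crk_of_Sur`. -/
def S_Corank2 : Prop := Corank → ∀ {d M1 M2 M3 μ : ℕ} (w : Multiset ℕ), M3 ≤ M2 → M2 ≤ M1 →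
  M1 + M2 + M3 ≤ d → M1 + 1064960 * (μ + 1) ≤ d → 1 ≤ μ → μ ∈ w → (∀ v ∈ w, 1 ≤ v ∧ v ≤ μ) →
  2 ^ 29 * w.toFinset.card * μ ^ 2 ≤ (HX M1 M2 M3 d).card →
  crkM (HX M1 M2 M3 d) w ≤ (HX M1 M2 M3 d).card - TH2.NU.condM w

/-! ## J. General points of the plane -/

open Pool.Agent.H932R2 Pool.Agent.H932R3 Pool.Agent.H932R7 in
/-- J1. From the corank to the rank in degree `d`, with the three large multiplicities. Proof.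
`crk_spec` gives `T ⊆ HX` with `T.card ≥ min |HX| (condM w)` and emptiness on `T`;
`Pool.Agent.TH603.Sur.RkI_of_LM` (TH603/Sur/Forms.lean; after passing to a common field: see
`full_open`, `indep_open` there and `H932R3.RkS` over `ℚ`, e.g. the argument of `Emp_open` or of
`Pool.Agent.TH15.Nag.Emp_generic`) gives `RkS (PF ℚ w)` on the finset
`Rg 1 0 (d + 1) (d - M1) M2 M3` (which is `HX` with the coordinates exchanged);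
`Pool.Agent.W609.T.hex_sum`, `Pool.Agent.W609.T.card_hex`. -/
def S_RankHX : Prop := ∀ {d M1 M2 M3 : ℕ} {ι : Type} [Fintype ι] (w : ι → ℕ), M3 ≤ M2 → M2 ≤ M1 →
  M1 + M2 + M3 ≤ d →
  crkM (HX M1 M2 M3 d) ((Finset.univ.val.map w).filter fun v => 1 ≤ v) ≤
    (HX M1 M2 M3 d).card - TH2.NU.condM ((Finset.univ.val.map w).filter fun v => 1 ≤ v) →
  RkS (PF ℚ (Sum.elim ![M1, M2, M3] w)) (Tset d)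
    (min ((d + 2).choose 2) (Aw (Sum.elim ![M1, M2, M3] w)))

end Pool.Agent.H200W
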